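import Mathlib

set_option autoImplicit false

/-!
# Generalised Collatz maps: iterates, words with small periods
-/

open Finset

namespace Pool.Agent.J6H87.SW

/-- the generalised Collatz map with modulus `d`, multipliers `m i`, offsets `r i` -/
def TG (d : ℕ) (m r : ℤ → ℤ) (x : ℤ) : ℤ := (m (x % d) * x - r (x % d)) / d

/-- admissible data; `δ` divides the denominators of the `m i / d` -/
structure Dat (d δ : ℕ) (m r : ℤ → ℤ) : Prop where
  hd : 2 ≤ d
  hδ : 2 ≤ δ
  ne : ∀ i, m i ≠ 0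
  adm : ∀ x : ℤ, (d : ℤ) ∣ m (x % d) * x - r (x % d)
  dv : ∀ i, δ * Int.gcd (m i) d ∣ d

/-- the residue word of the trajectory -/
def wd (d : ℕ) (m r : ℤ → ℤ) (x : ℤ) (j : ℕ) : ℤ := (TG d m r)^[j] x % d

/-- product of the multipliers over `[a, a + l)` -/
def mu (m : ℤ → ℤ) (w : ℕ → ℤ) (a : ℕ) : ℕ → ℤ
  | 0 => 1
  | l + 1 => m (w (a + l)) * mu m w a l

/-- the offset of the composition over `[a, a + l)` -/
def off (d : ℕ) (m r : ℤ → ℤ) (w : ℕ → ℤ) (a : ℕ) : ℕ → ℤ
  | 0 => 0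
  | l + 1 => m (w (a + l)) * off d m r w a l - (d : ℤ) ^ l * r (w (a + l))

/-- the height bound -/
def HH (d : ℕ) (m r : ℤ → ℤ) : ℕ := d + ∑ i ∈ range d, ((m i).natAbs + (r i).natAbs)

section

variable {d δ : ℕ} {m r : ℤ → ℤ}

lemma TG_rec (D : Dat d δ m r) (x : ℤ) : (d : ℤ) * TG d m r x = m (x % d) * x - r (x % d) :=
  Int.mul_ediv_cancel' (D.adm x)

lemma iter_rec (D : Dat d δ m r) (x : ℤ) (a l : ℕ) :
    (d : ℤ) ^ l * (TG d m r)^[a + l] x = mu m (wd d m r x) a l * (TG d m r)^[a] x +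
      off d m r (wd d m r x) a l := by
  induction l with
  | zero => simp [mu, off]
  | succ l ih =>
    have h1 : (TG d m r)^[a + (l + 1)] x = TG d m r ((TG d m r)^[a + l] x) := by
      rw [← add_assoc, Function.iterate_succ_apply']
    rw [h1, pow_succ, mul_assoc, TG_rec D, mu, off]
    have h2 : (TG d m r)^[a + l] x % d = wd d m r x (a + l) := rfl
    rw [h2, mul_sub, mul_left_comm, ih]
    ring

lemma mu_ne (D : Dat d δ m r) (w : ℕ → ℤ) (a l : ℕ) : mu m w a l ≠ 0 := by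
  induction l with
  | zero => simp [mu]
  | succ l ih => rw [mu]; exact mul_ne_zero (D.ne _) ih

lemma mu_add (w : ℕ → ℤ) (a l l' : ℕ) : mu m w a (l + l') = mu m w a l * mu m w (a + l) l' := by
  induction l' with
  | zero => simp [mu]
  | succ l' ih =>
    rw [← add_assoc, mu, mu, ih, add_assoc]
    ring

lemma mu_congr {w : ℕ → ℤ} {a a' l : ℕ} (h : ∀ j < l, w (a + j) = w (a' + j)) :
    mu m w a l = mu m w a' l := by
  induction l with
  | zero => rfl
  | succ l ih =>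
    rw [mu, mu, ih fun j hj => h j (by omega), h l (by omega)]

lemma off_congr {w : ℕ → ℤ} {a a' l : ℕ} (h : ∀ j < l, w (a + j) = w (a' + j)) :
    off d m r w a l = off d m r w a' l := by
  induction l with
  | zero => rfl
  | succ l ih =>
    rw [off, off, ih fun j hj => h j (by omega), h l (by omega)]

lemma wd_mem (D : Dat d δ m r) (x : ℤ) (j : ℕ) : ∃ i ∈ range d, wd d m r x j = (i : ℤ) := by
  have hd : (0 : ℤ) < d := by have := D.hd; omega
  have h1 := Int.emod_nonneg ((TG d m r)^[j] x) hd.ne'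
  have h2 := Int.emod_lt_of_pos ((TG d m r)^[j] x) hd
  refine ⟨((TG d m r)^[j] x % d).toNat, ?_, ?_⟩
  · rw [mem_range]; omega
  · unfold wd; omega

lemma le_HH (D : Dat d δ m r) (x : ℤ) (j : ℕ) :
    |m (wd d m r x j)| + |r (wd d m r x j)| + d ≤ (HH d m r : ℤ) := by
  obtain ⟨i, hi, h⟩ := wd_mem D x j
  rw [h]
  unfold HH
  have h1 : (m i).natAbs + (r i).natAbs ≤ ∑ i ∈ range d, ((m i).natAbs + (r i).natAbs) :=
    single_le_sum (f := fun i : ℕ => (m i).natAbs + (r i).natAbs) (fun _ _ => Nat.zero_le _) hi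
  have h2 : |m (i : ℤ)| = ((m i).natAbs : ℤ) := Int.abs_eq_natAbs _
  have h3 : |r (i : ℤ)| = ((r i).natAbs : ℤ) := Int.abs_eq_natAbs _
  rw [h2, h3]
  push_cast at h1 ⊢
  have h4 : ((m i).natAbs : ℤ) + ((r i).natAbs : ℤ) ≤
      ∑ i ∈ range d, (((m i).natAbs : ℤ) + ((r i).natAbs : ℤ)) := by exact_mod_cast h1
  simp only [Int.natCast_natAbs] at h4 ⊢
  linarith

lemma d_le_HH (d : ℕ) (m r : ℤ → ℤ) : d ≤ HH d m r := Nat.le_add_right _ _

lemma mu_le (D : Dat d δ m r) (x : ℤ) (a l : ℕ) :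
    |mu m (wd d m r x) a l| ≤ (HH d m r : ℤ) ^ l := by
  induction l with
  | zero => simp [mu]
  | succ l ih =>
    rw [mu, abs_mul, pow_succ, mul_comm]
    apply mul_le_mul ih _ (abs_nonneg _) (by positivity)
    have := le_HH D x (a + l)
    have h1 := abs_nonneg (r (wd d m r x (a + l)))
    have h2 : (0 : ℤ) ≤ d := Nat.cast_nonneg _
    linarith

lemma off_le (D : Dat d δ m r) (x : ℤ) (a l : ℕ) :
    |off d m r (wd d m r x) a l| ≤ (HH d m r : ℤ) ^ l := by
  induction l with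
  | zero => simp [off]
  | succ l ih =>
    rw [off]
    have h1 := le_HH D x (a + l)
    have h2 : (0 : ℤ) ≤ d := Nat.cast_nonneg _
    have h3 : (d : ℤ) ^ l ≤ (HH d m r : ℤ) ^ l :=
      pow_le_pow_left₀ h2 (by exact_mod_cast d_le_HH d m r) l
    have h4 : (0 : ℤ) ≤ (HH d m r : ℤ) ^ l := by positivity
    calc |m (wd d m r x (a + l)) * off d m r (wd d m r x) a l - (d : ℤ) ^ l * r (wd d m r x (a + l))|
        ≤ |m (wd d m r x (a + l)) * off d m r (wd d m r x) a l| +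
          |(d : ℤ) ^ l * r (wd d m r x (a + l))| := abs_sub _ _
      _ = |m (wd d m r x (a + l))| * |off d m r (wd d m r x) a l| +
          (d : ℤ) ^ l * |r (wd d m r x (a + l))| := by
        rw [abs_mul, abs_mul, abs_of_nonneg (pow_nonneg h2 l)]
      _ ≤ |m (wd d m r x (a + l))| * (HH d m r : ℤ) ^ l +
          (HH d m r : ℤ) ^ l * |r (wd d m r x (a + l))| := by
        apply add_le_add
        · exact mul_le_mul_of_nonneg_left ih (abs_nonneg _)
        · exact mul_le_mul_of_nonneg_right h3 (abs_nonneg _)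
      _ = (|m (wd d m r x (a + l))| + |r (wd d m r x (a + l))|) * (HH d m r : ℤ) ^ l := by ring
      _ ≤ (HH d m r : ℤ) * (HH d m r : ℤ) ^ l := by
        apply mul_le_mul_of_nonneg_right _ h4
        linarith
      _ = (HH d m r : ℤ) ^ (l + 1) := by ring

/-! ### valuations -/

lemma val_m (D : Dat d δ m r) {p : ℕ} (hp : p.Prime) (hpδ : p ∣ δ) (i : ℤ) :
    padicValInt p (m i) + padicValNat p δ ≤ padicValNat p d := by
  have := Fact.mk hp
  have hd0 : d ≠ 0 := by have := D.hd; omega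
  have hδ0 : δ ≠ 0 := by have := D.hδ; omega
  have hg0 : Int.gcd (m i) d ≠ 0 := by
    intro h
    have := (Int.gcd_eq_zero_iff.1 h).1
    exact D.ne i this
  obtain ⟨k, hk⟩ := D.dv i
  have hk0 : k ≠ 0 := by
    rintro rfl
    rw [mul_zero] at hk
    exact hd0 hk
  have h1 : padicValNat p d = padicValNat p δ + padicValNat p (Int.gcd (m i) d) + padicValNat p k := by
    have h := congrArg (padicValNat p) hk
    rw [padicValNat.mul (mul_ne_zero hδ0 hg0) hk0, padicValNat.mul hδ0 hg0] at h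
    exact h
  have h2 : 1 ≤ padicValNat p δ := one_le_padicValNat_of_dvd hδ0 hpδ
  -- p ^ v_p(m) divides d, else p ^ (v_p(d)) divides the gcd
  have h3 : padicValInt p (m i) ≤ padicValNat p (Int.gcd (m i) d) := by
    rcases le_or_gt (padicValInt p (m i)) (padicValNat p d) with h | h
    · rw [← padicValNat_dvd_iff_le hg0]
      have h4 : p ^ padicValInt p (m i) ∣ (m i).natAbs := pow_padicValNat_dvd
      have h5 : p ^ padicValInt p (m i) ∣ d := (pow_dvd_pow p h).trans pow_padicValNat_dvd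
      exact Int.natCast_dvd_natCast.1 (by
        rw [Int.natCast_pow]
        apply Int.dvd_coe_gcd
        · have : ((p ^ padicValInt p (m i) : ℕ) : ℤ) ∣ m i := Int.natCast_dvd.2 h4
          exact_mod_cast this
        · exact_mod_cast h5)
    · exfalso
      have h4 : p ^ padicValNat p d ∣ (m i).natAbs :=
        (pow_dvd_pow p h.le).trans pow_padicValNat_dvd
      have h5 : padicValNat p d ≤ padicValNat p (Int.gcd (m i) d) := by
        rw [← padicValNat_dvd_iff_le hg0]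
        have h6 : p ^ padicValNat p d ∣ d := pow_padicValNat_dvd
        exact Int.natCast_dvd_natCast.1 (by
          rw [Int.natCast_pow]
          apply Int.dvd_coe_gcd
          · have : ((p ^ padicValNat p d : ℕ) : ℤ) ∣ m i := Int.natCast_dvd.2 h4
            exact_mod_cast this
          · exact_mod_cast h6)
      omega
  omega

lemma val_mu (D : Dat d δ m r) {p : ℕ} (hp : p.Prime) (hpδ : p ∣ δ) (w : ℕ → ℤ) (a l : ℕ) :
    padicValInt p (mu m w a l) + l * padicValNat p δ ≤ l * padicValNat p d := by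
  have := Fact.mk hp
  induction l with
  | zero => simp [mu]
  | succ l ih =>
    rw [mu, padicValInt.mul (D.ne _) (mu_ne D w a l)]
    have h1 := val_m D hp hpδ (w (a + l))
    have h2 : (l + 1) * padicValNat p δ = l * padicValNat p δ + padicValNat p δ := by ring
    have h3 : (l + 1) * padicValNat p d = l * padicValNat p d + padicValNat p d := by ring
    omega

lemma exists_p (D : Dat d δ m r) : ∃ p : ℕ, p.Prime ∧ p ∣ δ :=
  Nat.exists_prime_and_dvd (by have := D.hδ; omega)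

lemma mu_ne_pow (D : Dat d δ m r) (w : ℕ → ℤ) (a : ℕ) {l : ℕ} (hl : 1 ≤ l) :
    (d : ℤ) ^ l - mu m w a l ≠ 0 := by
  intro h
  obtain ⟨p, hp, hpδ⟩ := exists_p D
  have := Fact.mk hp
  have hd0 : d ≠ 0 := by have := D.hd; omega
  have hδ0 : δ ≠ 0 := by have := D.hδ; omega
  have h1 : mu m w a l = (d : ℤ) ^ l := by linarith
  have h2 := val_mu D hp hpδ w a l
  rw [h1] at h2
  have h3 : padicValInt p ((d : ℤ) ^ l) = l * padicValNat p d := by
    have h4 : ((d : ℤ) ^ l) = ((d ^ l : ℕ) : ℤ) := by push_cast; rfl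
    rw [h4, padicValInt.of_nat, padicValNat.pow]
  rw [h3] at h2
  have h5 : 1 ≤ padicValNat p δ := one_le_padicValNat_of_dvd hδ0 hpδ
  have h6 : 1 ≤ l * padicValNat p δ := Nat.mul_pos hl h5
  omega

/-! ### pieces with small periods -/

/-- the piece `[A, B)` of the trajectory is a power of a word with fixed point `ξ` -/
structure PP (d : ℕ) (m r : ℤ → ℤ) (x : ℤ) (ℓ A B : ℕ) (ξ : ℚ) : Prop where
  le : A ≤ B
  fix : (((TG d m r)^[B] x : ℤ) : ℚ) - ξ =
    (mu m (wd d m r x) A (B - A) : ℚ) / (d : ℚ) ^ (B - A) * ((((TG d m r)^[A] x : ℤ) : ℚ) - ξ)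
  num : |ξ.num| ≤ (2 * HH d m r : ℤ) ^ ℓ
  den : (ξ.den : ℤ) ≤ (2 * HH d m r : ℤ) ^ ℓ
  per : A < B → ((((TG d m r)^[A] x : ℤ) : ℚ) = ξ) →
    ∃ π, 1 ≤ π ∧ π ≤ ℓ ∧ A + π ≤ B ∧ (TG d m r)^[A + π] x = (TG d m r)^[A] x

lemma PPpow (D : Dat d δ m r) (x : ℤ) {ℓ π : ℕ} (hπ : 1 ≤ π) (hπℓ : π ≤ ℓ) (A k : ℕ)
    (hper : ∀ j, A ≤ j → j + π < A + k * π → wd d m r x (j + π) = wd d m r x j) :
    ∃ ξ : ℚ, PP d m r x ℓ A (A + k * π) ξ := by
  have hd0 : (d : ℚ) ≠ 0 := by have := D.hd; positivity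
  set w := wd d m r x with hw
  set M := mu m w A π with hM
  set O := off d m r w A π with hO
  have hne : (d : ℤ) ^ π - M ≠ 0 := mu_ne_pow D w A hπ
  have hneQ : (d : ℚ) ^ π - (M : ℚ) ≠ 0 := by
    have : (((d : ℤ) ^ π - M : ℤ) : ℚ) ≠ 0 := by exact_mod_cast hne
    push_cast at this
    exact this
  set ξ : ℚ := (O : ℚ) / ((d : ℚ) ^ π - M) with hξ
  have hξ' : (d : ℚ) ^ π * ξ = M * ξ + O := by
    rw [hξ]; field_simp; ring
  -- one block
  have hblock : ∀ i < k, mu m w (A + i * π) π = M ∧ off d m r w (A + i * π) π = O := by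
    intro i
    induction i with
    | zero => intro _; simp [hM, hO]
    | succ i ih =>
      intro hi
      obtain ⟨h1, h2⟩ := ih (by omega)
      have h3 : ∀ j < π, w (A + (i + 1) * π + j) = w (A + i * π + j) := by
        intro j hj
        have h4 := hper (A + i * π + j) (by omega) (by
          have : (i + 1 + 1) * π ≤ k * π := Nat.mul_le_mul_right _ (by omega)
          have e : (i + 1 + 1) * π = i * π + π + π := by ring
          omega)
        rw [← h4]
        congr 1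
        ring
      exact ⟨by rw [mu_congr h3, h1], by rw [off_congr h3, h2]⟩
  have hmul : ∀ i ≤ k, mu m w A (i * π) = M ^ i := by
    intro i
    induction i with
    | zero => intro _; simp [mu]
    | succ i ih =>
      intro hi
      rw [show (i + 1) * π = i * π + π by ring, mu_add, ih (by omega), (hblock i (by omega)).1,
        pow_succ]
  have hstep : ∀ i ≤ k, (((TG d m r)^[A + i * π] x : ℤ) : ℚ) - ξ =
      ((M : ℚ) / (d : ℚ) ^ π) ^ i * ((((TG d m r)^[A] x : ℤ) : ℚ) - ξ) := by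
    intro i
    induction i with
    | zero => intro _; simp
    | succ i ih =>
      intro hi
      have h1 := ih (by omega)
      have h2 := iter_rec D x (A + i * π) π
      rw [← hw, (hblock i (by omega)).1, (hblock i (by omega)).2] at h2
      have h3 : (d : ℚ) ^ π * (((TG d m r)^[A + i * π + π] x : ℤ) : ℚ) =
          M * (((TG d m r)^[A + i * π] x : ℤ) : ℚ) + O := by exact_mod_cast h2
      rw [show A + (i + 1) * π = A + i * π + π by ring, pow_succ, mul_right_comm, ← h1]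
      have hdp : (d : ℚ) ^ π ≠ 0 := pow_ne_zero _ hd0
      field_simp
      linear_combination h3 - hξ'
  have hH2 : (2 : ℤ) ≤ HH d m r := by
    have h1 := D.hd
    have h2 := d_le_HH d m r
    exact_mod_cast h1.trans h2
  have hHpow : (HH d m r : ℤ) ^ π ≤ (HH d m r : ℤ) ^ ℓ := pow_le_pow_right₀ (by linarith) hπℓ
  have h2H : (2 : ℤ) * (HH d m r : ℤ) ^ ℓ ≤ (2 * HH d m r : ℤ) ^ ℓ := by
    rw [mul_pow]
    apply mul_le_mul_of_nonneg_right _ (by positivity)
    exact le_self_pow₀ (by norm_num) (by omega)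
  have hHℓ : (0 : ℤ) ≤ (HH d m r : ℤ) ^ ℓ := by positivity
  refine ⟨ξ, Nat.le_add_right _ _, ?_, ?_, ?_, ?_⟩
  · rw [Nat.add_sub_cancel_left, hstep k le_rfl, ← hw, hmul k le_rfl, div_pow, ← pow_mul, mul_comm π k]
    push_cast
    rfl
  · -- numerator
    have h1 : ξ = ((O : ℤ) : ℚ) / (((d : ℤ) ^ π - M : ℤ) : ℚ) := by rw [hξ]; push_cast; rfl
    have h2 : |ξ.num| ≤ |O| := by
      by_cases hO0 : O = 0
      · rw [h1, hO0]; simp
      · have h3 : ξ.num ∣ O := by
          rw [h1, ← Rat.divInt_eq_div]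
          exact Rat.num_dvd _ hne
        exact Int.le_of_dvd (abs_pos.2 hO0) ((abs_dvd_abs _ _).2 h3)
    have h3 := off_le D x A π
    rw [← hw, ← hO] at h3
    linarith
  · have h1 : ξ = ((O : ℤ) : ℚ) / (((d : ℤ) ^ π - M : ℤ) : ℚ) := by rw [hξ]; push_cast; rfl
    have h2 : (ξ.den : ℤ) ∣ (d : ℤ) ^ π - M := by
      rw [h1, ← Rat.divInt_eq_div]
      exact Rat.den_dvd _ _
    have h3 : (ξ.den : ℤ) ≤ |(d : ℤ) ^ π - M| :=
      Int.le_of_dvd (abs_pos.2 hne) ((dvd_abs _ _).2 h2)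
    have h4 := mu_le D x A π
    rw [← hw, ← hM] at h4
    have h5 : (d : ℤ) ^ π ≤ (HH d m r : ℤ) ^ π :=
      pow_le_pow_left₀ (Nat.cast_nonneg _) (by exact_mod_cast d_le_HH d m r) π
    have h6 : |(d : ℤ) ^ π - M| ≤ |(d : ℤ) ^ π| + |M| := abs_sub _ _
    rw [abs_of_nonneg (show (0 : ℤ) ≤ (d : ℤ) ^ π by positivity)] at h6
    linarith
  · intro hlt hfix
    have hk : 1 ≤ k := by
      by_contra h
      have : k = 0 := by omega
      rw [this, zero_mul, add_zero] at hlt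
      exact lt_irrefl _ hlt
    refine ⟨π, hπ, hπℓ, ?_, ?_⟩
    · have : 1 * π ≤ k * π := Nat.mul_le_mul_right _ hk
      omega
    · have h1 := hstep 1 hk
      rw [hfix, sub_self, mul_zero, one_mul] at h1
      have h2 : (((TG d m r)^[A + π] x : ℤ) : ℚ) = (((TG d m r)^[A] x : ℤ) : ℚ) := by
        rw [hfix]; linarith
      exact_mod_cast h2

/-- a piece with a period is a product of two powers -/
lemma PPtwo (D : Dat d δ m r) (x : ℤ) {ℓ π A B : ℕ} (hAB : A ≤ B) (hπ : 1 ≤ π) (hπℓ : π ≤ ℓ)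
    (hper : ∀ j, A ≤ j → j + π < B → wd d m r x (j + π) = wd d m r x j) :
    ∃ (c : ℕ) (ξ ξ' : ℚ), PP d m r x ℓ A c ξ ∧ PP d m r x ℓ c B ξ' := by
  set k := (B - A) / π with hk
  have h1 : k * π ≤ B - A := Nat.div_mul_le_self _ _
  obtain ⟨ξ, hξ⟩ := PPpow D x hπ hπℓ A k (fun j h2 h3 => hper j h2 (by omega))
  have h2 : (B - A) % π < π := Nat.mod_lt _ hπ
  have h3 : π * k + (B - A) % π = B - A := Nat.div_add_mod _ _
  have h4 : A + k * π + (B - A) % π = B := by
    rw [mul_comm] at h3; omega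
  rcases Nat.eq_zero_or_pos ((B - A) % π) with h0 | h0
  · obtain ⟨ξ', hξ'⟩ := PPpow D x hπ hπℓ (A + k * π) 0 (fun j h5 h6 => by omega)
    refine ⟨A + k * π, ξ, ξ', hξ, ?_⟩
    have h5 : A + k * π + 0 * π = B := by rw [h0] at h4; omega
    rw [h5] at hξ'
    exact hξ'
  · obtain ⟨ξ', hξ'⟩ := PPpow D x h0 (h2.le.trans hπℓ) (A + k * π) 1 (fun j h5 h6 => by omega)
    refine ⟨A + k * π, ξ, ξ', hξ, ?_⟩
    rw [one_mul, h4] at hξ'
    exact hξ'

/-- the word of the residues of the first `n` terms is a concatenation of `s` words with small periods -/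
def Spl (w : ℕ → ℤ) (ℓ s n : ℕ) : Prop :=
  ∃ t : ℕ → ℕ, t 0 = 0 ∧ t s = n ∧ (∀ i < s, t i ≤ t (i + 1)) ∧
    ∀ i < s, ∃ π, 1 ≤ π ∧ π ≤ ℓ ∧ ∀ j, t i ≤ j → j + π < t (i + 1) → w (j + π) = w j

lemma PPall (D : Dat d δ m r) (x : ℤ) {ℓ s n : ℕ} (h : Spl (wd d m r x) ℓ s n) :
    ∃ (A : ℕ → ℕ) (ξ : ℕ → ℚ), A 0 = 0 ∧ A (2 * s) = n ∧
      ∀ i < 2 * s, PP d m r x ℓ (A i) (A (i + 1)) (ξ i) := by
  obtain ⟨t, h0, hs, hmono, hper⟩ := h
  have h1 : ∀ i, ∃ (c : ℕ) (ξ ξ' : ℚ), i < s → PP d m r x ℓ (t i) c ξ ∧ PP d m r x ℓ c (t (i + 1)) ξ' := by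
    intro i
    by_cases hi : i < s
    · obtain ⟨π, h1, h2, h3⟩ := hper i hi
      obtain ⟨c, ξ, ξ', h4⟩ := PPtwo D x (hmono i hi) h1 h2 h3
      exact ⟨c, ξ, ξ', fun _ => h4⟩
    · exact ⟨0, 0, 0, fun h => absurd h hi⟩
  choose c ξ ξ' h2 using h1
  refine ⟨fun i => if i % 2 = 0 then t (i / 2) else c (i / 2),
    fun i => if i % 2 = 0 then ξ (i / 2) else ξ' (i / 2), by simp [h0], by simp [hs], ?_⟩
  intro i hi
  have h3 := h2 (i / 2) (by omega)
  rcases Nat.mod_two_eq_zero_or_one i with h4 | h4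
  · have h5 : (i + 1) % 2 = 1 := by omega
    have h6 : (i + 1) / 2 = i / 2 := by omega
    simp only [h4, h5, h6, if_true, one_ne_zero, if_false]
    exact h3.1
  · have h5 : (i + 1) % 2 = 0 := by omega
    have h6 : (i + 1) / 2 = i / 2 + 1 := by omega
    simp only [h4, h5, h6, if_true, one_ne_zero, if_false]
    exact h3.2

end

end Pool.Agent.J6H87.SW
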