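import Mathlib
import Pool.Agent.TH551.SU.Sui

set_option autoImplicit false

/-!
# The subspace theorem along an ultrafilter, one coordinate replaced by the sum at each place
-/

open Finset Filter Topology Pool.Agent.TH932.Germs Pool.Agent.TH551.SU Pool.Agent.TH461.SST

namespace Pool.Agent.J6H87.SW

/-- identity matrix with row `k` replaced by ones -/
def RM {m : ℕ} (k : Option (Fin m)) : Matrix (Fin m) (Fin m) ℤ :=
  fun l j => if k = some l then 1 else if l = j then 1 else 0

lemma RM_apply {m : ℕ} (k : Option (Fin m)) (x : Fin m → ℤ) (l : Fin m) :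
    ∑ j, RM k l j * x j = if k = some l then ∑ j, x j else x l := by
  unfold RM
  by_cases h : k = some l
  · simp [h]
  · simp [h]

lemma RM_det {m : ℕ} (k : Option (Fin m)) : (RM k).det ≠ 0 := by
  intro h
  obtain ⟨x, hx, h1⟩ := Matrix.exists_mulVec_eq_zero_iff.2 h
  apply hx
  have h2 : ∀ l, (if k = some l then ∑ j, x j else x l) = 0 := by
    intro l
    rw [← RM_apply]
    exact congrFun h1 l
  funext l
  by_cases hl : k = some l
  · have h3 := h2 l
    rw [if_pos hl] at h3
    rw [← add_sum_erase _ _ (mem_univ l)] at h3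
    have h4 : ∑ j ∈ univ.erase l, x j = 0 := by
      apply sum_eq_zero
      intro j hj
      have h5 := h2 j
      rw [if_neg] at h5
      · exact h5
      · intro h6
        rw [hl] at h6
        exact (ne_of_mem_erase hj) (Option.some_injective _ h6).symm
    rw [h4, add_zero] at h3
    exact h3
  · have h3 := h2 l
    rw [if_neg hl] at h3
    exact h3

/-- the subspace theorem along the ultrafilter, for `Fin m` -/
theorem lemG0 {s m : ℕ} (hm : 1 ≤ m) (b : Fin s → ℕ) (hb : ∀ v, (b v).Prime)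
    (hbi : Function.Injective b) {L : ℕ → ℝ} (hL : Tendsto L atTop atTop) (X : Fin m → ℕ → ℤ)
    (hind : ∀ y : Fin m → ℤ, y ≠ 0 → ∀ᶠ n in (UU : Filter ℕ), ∑ l, y l * X l n ≠ 0)
    (k0 : Option (Fin m)) (kv : Fin s → Option (Fin m)) (e : ℕ → Fin s → Fin m → ℕ)
    (A : ℕ → Fin m → ℝ) (c γ : ℝ) (hc : 1 ≤ c) (hγ : 0 < γ)
    (hsize : ∀ᶠ n in (UU : Filter ℕ), Size b c γ (L n) (e n) (A n))
    (hreal : ∀ᶠ n in (UU : Filter ℕ), ∀ l,
      |((if k0 = some l then ∑ j, X j n else X l n : ℤ) : ℝ)| ≤ A n l)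
    (hpad : ∀ᶠ n in (UU : Filter ℕ), ∀ v l,
      (b v : ℤ) ^ (e n v l) ∣ if kv v = some l then ∑ j, X j n else X l n) : False := by
  classical
  obtain ⟨f, hf⟩ := exists_surjective_nat (Fin m → ℤ)
  have hne : ∀ᶠ n in (UU : Filter ℕ), (fun l => X l n) ≠ 0 := by
    have h1 := hind (Pi.single ⟨0, hm⟩ 1) (by
      intro h
      have := congrFun h ⟨0, hm⟩
      simp at this)
    filter_upwards [h1] with n hn h2
    apply hn
    apply sum_eq_zero
    intro l _
    have := congrFun h2 l
    simp only [Pi.zero_apply] at this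
    rw [this, mul_zero]
  have hex : ∀ t : ℕ, ∃ n, t ≤ n ∧ (Size b c γ (L n) (e n) (A n) ∧
      (∀ l, |((if k0 = some l then ∑ j, X j n else X l n : ℤ) : ℝ)| ≤ A n l) ∧
      (∀ v l, (b v : ℤ) ^ (e n v l) ∣ if kv v = some l then ∑ j, X j n else X l n) ∧
      (fun l => X l n) ≠ 0) ∧ ∀ q ≤ t, f q ≠ 0 → ∑ l : Fin m, f q l * X l n ≠ 0 := by
    intro t
    have h1 : ∀ᶠ n in (UU : Filter ℕ), ∀ q ∈ Finset.range (t + 1), f q ≠ 0 →
        ∑ l : Fin m, f q l * X l n ≠ 0 := by
      rw [Finset.eventually_all]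
      intro q _
      by_cases h2 : f q = 0
      · exact Eventually.of_forall fun n h3 => absurd h2 h3
      · filter_upwards [hind _ h2] with n hn _ using hn
    have h2 : ∀ᶠ n in (UU : Filter ℕ), t ≤ n := ev_of_atTop (eventually_ge_atTop t)
    obtain ⟨n, h3, h4, h5, h6, h7, h8⟩ :=
      (h2.and (hsize.and (hreal.and (hpad.and (hne.and h1))))).exists
    exact ⟨n, h3, ⟨h4, h5, h6, h7⟩, fun q hq => h8 q (Finset.mem_range_succ_iff.2 hq)⟩
  choose ν hν1 hν2 hν3 using hex
  obtain ⟨y, hy, hfr⟩ := sst m s hm (RM k0) (fun v => RM (kv v)) b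
    ⟨RM_det _, fun v => RM_det _, fun v => (hb v).two_le, fun v v' hv =>
      (Nat.coprime_primes (hb v) (hb v')).2 fun h => hv (hbi h)⟩ c γ hc hγ (fun t => L (ν t))
    (hL.comp (tendsto_atTop_mono hν1 tendsto_id)) (fun t => e (ν t)) (fun t => A (ν t))
    (fun t => (hν2 t).1) (fun t l => X l (ν t)) (fun t => (hν2 t).2.2.2)
    (fun t => ⟨fun l => by rw [RM_apply]; exact (hν2 t).2.1 l,
      fun v l => by rw [RM_apply]; exact (hν2 t).2.2.1 v l⟩)
  obtain ⟨q, rfl⟩ := hf y
  obtain ⟨t, h1, h2⟩ := (hfr.and_eventually (eventually_ge_atTop q)).exists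
  exact hν3 t q h2 hy h1

/-- the subspace theorem along the ultrafilter -/
theorem lemG {s : ℕ} {ι : Type} [Fintype ι] [DecidableEq ι] [Nonempty ι] (b : Fin s → ℕ)
    (hb : ∀ v, (b v).Prime)
    (hbi : Function.Injective b) {L : ℕ → ℝ} (hL : Tendsto L atTop atTop) (X : ι → ℕ → ℤ)
    (hind : ∀ y : ι → ℤ, y ≠ 0 → ∀ᶠ n in (UU : Filter ℕ), ∑ l, y l * X l n ≠ 0)
    (k0 : Option ι) (kv : Fin s → Option ι) (e : ℕ → Fin s → ι → ℕ)
    (A : ℕ → ι → ℝ) (c γ : ℝ) (hc : 1 ≤ c) (hγ : 0 < γ)
    (hsize : ∀ᶠ n in (UU : Filter ℕ), Size b c γ (L n) (e n) (A n))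
    (hreal : ∀ᶠ n in (UU : Filter ℕ), ∀ l,
      |((if k0 = some l then ∑ j, X j n else X l n : ℤ) : ℝ)| ≤ A n l)
    (hpad : ∀ᶠ n in (UU : Filter ℕ), ∀ v l,
      (b v : ℤ) ^ (e n v l) ∣ if kv v = some l then ∑ j, X j n else X l n) : False := by
  classical
  set E := Fintype.equivFin ι with hE
  have hopt : ∀ (k : Option ι) (l : Fin (Fintype.card ι)), k.map E = some l ↔ k = some (E.symm l) := by
    intro k l
    cases k with
    | none => simp
    | some i =>
      simp only [Option.map_some, Option.some.injEq]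
      exact ⟨fun h => by rw [← h, E.symm_apply_apply], fun h => by rw [h, E.apply_symm_apply]⟩
  have hsum : ∀ n, ∑ j, X (E.symm j) n = ∑ j, X j n := fun n => E.symm.sum_comp fun j => X j n
  refine lemG0 (m := Fintype.card ι) Fintype.card_pos b hb hbi hL (fun l => X (E.symm l)) ?_
    (k0.map E) (fun v => (kv v).map E) (fun n v l => e n v (E.symm l)) (fun n l => A n (E.symm l))
    c γ hc hγ ?_ ?_ ?_
  · intro y hy
    have h1 := hind (fun i => y (E i)) (by
      intro h
      apply hy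
      funext l
      have := congrFun h (E.symm l)
      simpa using this)
    filter_upwards [h1] with n hn h2
    apply hn
    rw [← h2, ← E.symm.sum_comp]
    simp
  · filter_upwards [hsize] with n hn
    obtain ⟨h1, h2, h3, h4⟩ := hn
    refine ⟨fun v l => h1 v _, fun l => h2 _, fun l => h3 _, ?_⟩
    rw [E.symm.sum_comp fun l => Real.log (A n l)]
    refine h4.trans (le_of_eq ?_)
    apply sum_congr rfl
    intro v _
    exact (E.symm.sum_comp fun l => (e n v l : ℝ) * Real.log (b v)).symm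
  · filter_upwards [hreal] with n hn l
    have := hn (E.symm l)
    simp only [hopt, hsum]
    exact this
  · filter_upwards [hpad] with n hn v l
    have := hn v (E.symm l)
    simp only [hopt, hsum]
    exact this

end Pool.Agent.J6H87.SW
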