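import Mathlib
import Pool.Agent.J6H87.SW.GA

set_option autoImplicit false

/-!
# The subspace theorem for products of negligible integers, units and cofactors
-/

open Finset Filter Topology Pool.Agent.TH932.Germs Pool.Agent.TH551.SU Pool.Agent.TH461.SST

namespace Pool.Agent.J6H87.SW

/-- the correction at the real place -/
noncomputable def t0 {ι : Type} (k0 : Option ι) (Y : ℤ) (W : ι → ℤ) : ℝ :=
  match k0 with
  | none => 0
  | some i => Real.log |(Y : ℝ)| - Real.log |(W i : ℝ)|

/-- the correction at a finite place -/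
noncomputable def tv {ι : Type} (k : Option ι) (e : ι → ℕ) (f : ℕ) (l : ℝ) : ℝ :=
  match k with
  | none => 0
  | some i => ((e i : ℝ) - f) * l

lemma log_abs_nonneg {z : ℤ} (hz : z ≠ 0) : 0 ≤ Real.log |(z : ℝ)| :=
  Real.log_nonneg (by exact_mod_cast Int.one_le_abs hz)

theorem lemG2 {s : ℕ} {ι : Type} [Fintype ι] [DecidableEq ι] [Nonempty ι] (b : Fin s → ℕ)
    (hb : ∀ v, (b v).Prime) (hbi : Function.Injective b) {L : ℕ → ℝ} (hL : Tendsto L atTop atTop)
    (C U z : ι → ℕ → ℤ) (hC : ∀ i, Negl L (C i))
    (e : ι → Fin s → ℕ → ℕ) (hU : ∀ i n, |(U i n : ℝ)| = ∏ v, (b v : ℝ) ^ (e i v n))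
    (hdv : ∀ i v n, (b v : ℤ) ^ (e i v n) ∣ U i n)
    (hind : ∀ y : ι → ℤ, y ≠ 0 → ∀ᶠ n in (UU : Filter ℕ), ∑ i, y i * (C i n * U i n * z i n) ≠ 0)
    (c : ℝ) (hc : 0 ≤ c)
    (hUb : ∀ i, ∀ᶠ n in (UU : Filter ℕ), Real.log |(U i n : ℝ)| ≤ c * L n)
    (hzb : ∀ i, ∀ᶠ n in (UU : Filter ℕ), Real.log |(z i n : ℝ)| ≤ c * L n)
    (k0 : Option ι) (kv : Fin s → Option ι) (f : Fin s → ℕ → ℕ)
    (hf : ∀ v, kv v ≠ none → ∀ᶠ n in (UU : Filter ℕ), (b v : ℤ) ^ (f v n) ∣ ∑ i, C i n * U i n * z i n)
    (hfb : ∀ v, ∀ᶠ n in (UU : Filter ℕ), (f v n : ℝ) * Real.log (b v) ≤ c * L n)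
    (γ : ℝ) (hγ : 0 < γ)
    (hsum : ∀ᶠ n in (UU : Filter ℕ), ∑ i, Real.log |(z i n : ℝ)| +
      t0 k0 (∑ i, C i n * U i n * z i n) (fun i => U i n * z i n) +
      ∑ v, tv (kv v) (fun i => e i v n) (f v n) (Real.log (b v)) ≤ - γ * L n) : False := by
  classical
  have hb2 : ∀ v, 2 ≤ b v := fun v => (hb v).two_le
  have hlb : ∀ v, 0 < Real.log (b v) := fun v => Real.log_pos (by exact_mod_cast hb2 v)
  set X : ι → ℕ → ℤ := fun i n => C i n * U i n * z i n with hX
  set Y : ℕ → ℤ := fun n => ∑ i, X i n with hY
  have hX0 : ∀ᶠ n in (UU : Filter ℕ), ∀ i, X i n ≠ 0 := by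
    refine eventually_all.2 fun i => ?_
    have h1 := hind (Pi.single i 1) (by
      intro h
      have := congrFun h i
      simp at this)
    filter_upwards [h1] with n hn h2
    apply hn
    rw [sum_eq_single i]
    · simp only [hX] at h2
      rw [Pi.single_eq_same, one_mul]
      exact h2
    · intro j _ hj
      rw [Pi.single_eq_of_ne hj, zero_mul]
    · intro h
      exact absurd (mem_univ _) h
  have hY0 : ∀ᶠ n in (UU : Filter ℕ), Y n ≠ 0 := by
    have h1 := hind (fun _ => 1) (by
      intro h
      obtain ⟨i⟩ : Nonempty ι := inferInstance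
      have := congrFun h i
      simp at this)
    filter_upwards [h1] with n hn h2
    apply hn
    rw [← h2]
    simp [hY, hX]
  have hU0 : ∀ i n, (0 : ℝ) < |(U i n : ℝ)| := by
    intro i n
    rw [hU]
    exact prod_pos fun v _ => by
      have := hb2 v
      positivity
  have hlU : ∀ i n, Real.log |(U i n : ℝ)| = ∑ v, (e i v n : ℝ) * Real.log (b v) := by
    intro i n
    rw [hU, Real.log_prod]
    · exact sum_congr rfl fun v _ => Real.log_pow _ _
    · intro v _
      have := hb2 v
      positivity
  have hev : ∀ i v n, (e i v n : ℝ) * Real.log (b v) ≤ Real.log |(U i n : ℝ)| := by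
    intro i v n
    rw [hlU]
    exact single_le_sum (f := fun v' => (e i v' n : ℝ) * Real.log (b v'))
      (fun v' _ => mul_nonneg (Nat.cast_nonneg _) (hlb v').le) (mem_univ v)
  -- the logarithms of the coordinates
  have hlX : ∀ᶠ n in (UU : Filter ℕ), ∀ i, Real.log |(X i n : ℝ)| =
      Real.log |(C i n : ℝ)| + Real.log |(U i n : ℝ)| + Real.log |(z i n : ℝ)| ∧
      0 ≤ Real.log |(C i n : ℝ)| ∧ 0 ≤ Real.log |(z i n : ℝ)| ∧
      Real.log |((U i n * z i n : ℤ) : ℝ)| = Real.log |(U i n : ℝ)| + Real.log |(z i n : ℝ)| := by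
    filter_upwards [hX0] with n hn i
    have h1 := hn i
    simp only [hX] at h1
    have h2 : z i n ≠ 0 := right_ne_zero_of_mul h1
    have h3 : C i n ≠ 0 := left_ne_zero_of_mul (left_ne_zero_of_mul h1)
    have h2' : |(z i n : ℝ)| ≠ 0 := abs_ne_zero.2 (by exact_mod_cast h2)
    have h3' : |(C i n : ℝ)| ≠ 0 := abs_ne_zero.2 (by exact_mod_cast h3)
    refine ⟨?_, log_abs_nonneg h3, log_abs_nonneg h2, ?_⟩
    · simp only [hX]
      push_cast
      rw [abs_mul, abs_mul, Real.log_mul (mul_ne_zero h3' (hU0 i n).ne') h2',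
        Real.log_mul h3' (hU0 i n).ne']
    · push_cast
      rw [abs_mul, Real.log_mul (hU0 i n).ne' h2']
  have hCs : ∀ δ : ℝ, 0 < δ → ∀ᶠ n in (UU : Filter ℕ), ∀ i, Real.log |(C i n : ℝ)| ≤ δ * L n := by
    intro δ hδ
    have h1 : ∀ᶠ n in (UU : Filter ℕ), ∀ i, |(C i n : ℝ)| ≤ Real.exp (δ * L n) :=
      eventually_all.2 fun i => hC i δ hδ
    filter_upwards [h1, hX0] with n hn h2 i
    have h3 : C i n ≠ 0 := by
      have := h2 i
      simp only [hX] at this
      exact left_ne_zero_of_mul (left_ne_zero_of_mul this)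
    rw [← Real.log_exp (δ * L n)]
    exact Real.log_le_log (abs_pos.2 (by exact_mod_cast h3)) (hn i)
  have hcard : (0 : ℝ) < Fintype.card ι := by exact_mod_cast Fintype.card_pos
  -- parameters
  refine lemG b hb hbi hL X (fun y hy => hind y hy) k0 kv
    (fun n v i => if kv v = some i then f v n else e i v n)
    (fun n i => if k0 = some i then |(Y n : ℝ)| else |(X i n : ℝ)|)
    (2 * c + 2) (γ / 2) (by linarith) (by positivity) ?_ ?_ ?_
  · have hUb' := eventually_all.2 hUb
    have hzb' := eventually_all.2 hzb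
    have hfb' := eventually_all.2 hfb
    have hlarge : ∀ᶠ n in (UU : Filter ℕ), Real.log (Fintype.card ι) ≤ L n :=
      ev_of_atTop (hL.eventually_ge_atTop _)
    filter_upwards [hUb', hzb', hfb', hlarge, L_nonneg hL, hX0, hY0, hlX, hCs 1 one_pos,
      hCs (γ / 2 / Fintype.card ι) (by positivity), hsum] with n h1 h2 h3 h4 h5 h6 h7 h8 h9 h10 h11
    have hXb : ∀ i, Real.log |(X i n : ℝ)| ≤ (2 * c + 1) * L n := by
      intro i
      rw [(h8 i).1]
      have := h1 i
      have := h2 i
      have := h9 i
      linarith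
    refine ⟨?_, ?_, ?_, ?_⟩
    · intro v i
      have h12 : c * L n ≤ (2 * c + 2) * L n := by nlinarith
      by_cases h : kv v = some i
      · simp only [if_pos h]
        exact (h3 v).trans h12
      · simp only [if_neg h]
        exact ((hev i v n).trans (h1 i)).trans h12
    · intro i
      by_cases h : k0 = some i
      · simp only [if_pos h]
        exact abs_pos.2 (by exact_mod_cast h7)
      · simp only [if_neg h]
        exact abs_pos.2 (by exact_mod_cast h6 i)
    · intro i
      by_cases h : k0 = some i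
      · simp only [if_pos h]
        rw [abs_of_nonneg (log_abs_nonneg h7)]
        have h12 : |(Y n : ℝ)| ≤ Fintype.card ι * Real.exp ((2 * c + 1) * L n) := by
          simp only [hY]
          push_cast
          refine (abs_sum_le_sum_abs _ _).trans ?_
          rw [← card_univ, ← nsmul_eq_mul]
          apply sum_le_card_nsmul
          intro j _
          rw [← Real.log_le_iff_le_exp (abs_pos.2 (by exact_mod_cast h6 j))]
          exact hXb j
        have h13 := Real.log_le_log (abs_pos.2 (show (Y n : ℝ) ≠ 0 by exact_mod_cast h7)) h12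
        rw [Real.log_mul hcard.ne' (Real.exp_pos _).ne', Real.log_exp] at h13
        linarith
      · simp only [if_neg h]
        rw [abs_of_nonneg (log_abs_nonneg (h6 i))]
        have := hXb i
        linarith
    · -- the product
      have hA : ∑ i, Real.log (if k0 = some i then |(Y n : ℝ)| else |(X i n : ℝ)|) ≤
          ∑ i, Real.log |(X i n : ℝ)| + t0 k0 (Y n) (fun i => U i n * z i n) := by
        cases hk : k0 with
        | none =>
          simp [t0]
        | some i0 =>
          have e1 : ∀ i, Real.log (if some i0 = some i then |(Y n : ℝ)| else |(X i n : ℝ)|) =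
              Real.log |(X i n : ℝ)| + if i0 = i then Real.log |(Y n : ℝ)| - Real.log |(X i0 n : ℝ)| else 0 := by
            intro i
            by_cases h : i0 = i
            · subst h
              simp
            · rw [if_neg (fun h' => h (Option.some_injective _ h')), if_neg h, add_zero]
          rw [sum_congr rfl fun i _ => e1 i, sum_add_distrib]
          simp only [sum_ite_eq, mem_univ, if_true, t0]
          have e2 := (h8 i0).1
          have e3 := (h8 i0).2.1
          have e4 := (h8 i0).2.2.2
          rw [e4, e2]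
          linarith
      have hE : ∑ v, ∑ i, ((if kv v = some i then f v n else e i v n : ℕ) : ℝ) * Real.log (b v) =
          ∑ i, Real.log |(U i n : ℝ)| -
            ∑ v, tv (kv v) (fun i => e i v n) (f v n) (Real.log (b v)) := by
        have e0 : ∑ i, Real.log |(U i n : ℝ)| = ∑ v, ∑ i, (e i v n : ℝ) * Real.log (b v) := by
          rw [sum_congr rfl fun i _ => hlU i n, sum_comm]
        rw [e0, ← sum_sub_distrib]
        apply sum_congr rfl
        intro v _
        cases hk : kv v with
        | none =>
          simp [tv]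
        | some i0 =>
          have e1 : ∀ i, ((if some i0 = some i then f v n else e i v n : ℕ) : ℝ) * Real.log (b v) =
              (e i v n : ℝ) * Real.log (b v) -
                if i0 = i then ((e i0 v n : ℝ) - f v n) * Real.log (b v) else 0 := by
            intro i
            by_cases h : i0 = i
            · subst h
              simp
              ring
            · rw [if_neg (fun h' => h (Option.some_injective _ h')), if_neg h, sub_zero]
          rw [sum_congr rfl fun i _ => e1 i, sum_sub_distrib]
          simp only [sum_ite_eq, mem_univ, if_true, tv]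
      rw [hE]
      have h12 : ∑ i, Real.log |(X i n : ℝ)| = ∑ i, Real.log |(C i n : ℝ)| +
          ∑ i, Real.log |(U i n : ℝ)| + ∑ i, Real.log |(z i n : ℝ)| := by
        rw [sum_congr rfl fun i _ => (h8 i).1, sum_add_distrib, sum_add_distrib]
      have h13 : ∑ i, Real.log |(C i n : ℝ)| ≤ γ / 2 * L n := by
        calc ∑ i, Real.log |(C i n : ℝ)| ≤ ∑ _i : ι, γ / 2 / Fintype.card ι * L n :=
              sum_le_sum fun i _ => h10 i
          _ = γ / 2 * L n := by
            rw [sum_const, card_univ, nsmul_eq_mul]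
            field_simp
      have h14 : t0 k0 (Y n) (fun i => U i n * z i n) =
        t0 k0 (∑ i, C i n * U i n * z i n) (fun i => U i n * z i n) := rfl
      linarith
  · refine Eventually.of_forall fun n i => ?_
    by_cases h : k0 = some i
    · simp only [if_pos h]
      exact le_rfl
    · simp only [if_neg h]
      exact le_rfl
  · have hf' : ∀ᶠ n in (UU : Filter ℕ), ∀ v, kv v ≠ none → (b v : ℤ) ^ (f v n) ∣ Y n := by
      refine eventually_all.2 fun v => ?_
      by_cases h : kv v = none
      · exact Eventually.of_forall fun n h' => absurd h h'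
      · filter_upwards [hf v h] with n hn _ using hn
    filter_upwards [hf'] with n hn v i
    by_cases h : kv v = some i
    · simp only [if_pos h]
      exact hn v (by rw [h]; exact Option.some_ne_none _)
    · simp only [if_neg h]
      exact Dvd.dvd.mul_right (Dvd.dvd.mul_left (hdv i v n) _) _

end Pool.Agent.J6H87.SW
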