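import Mathlib
import Pool.Agent.J6H87.SW.GB

set_option autoImplicit false

/-!
# The subspace theorem for combinations with coefficients in the field of negligible germs
-/

open Finset Filter Topology Pool.Agent.TH932.Germs Pool.Agent.TH551.SU Pool.Agent.TH461.SST

namespace Pool.Agent.J6H87.SW

lemma gm_sum {ι : Type} (s : Finset ι) (a : ι → ℕ → ℚ) :
    ∑ i ∈ s, gm (a i) = gm fun t => ∑ i ∈ s, a i t := by
  classical
  induction s using Finset.induction_on with
  | empty => simp [gm_zero]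
  | insert i s hi ih =>
    rw [sum_insert hi, ih, gm_add]
    congr 1
    funext t
    rw [sum_insert hi]

/-- independence of unit germs, arbitrary index type -/
lemma sui' {s : ℕ} (b : Fin s → ℕ) (hb : ∀ v, (b v).Prime) (hbi : Function.Injective b)
    {L : ℕ → ℝ} (hL : Tendsto L atTop atTop) {ι : Type} [Fintype ι] (u : ι → GG)
    (hu : ∀ i, GSU b (u i)) (hne : ∀ i j, i ≠ j → u i / u j ∉ KK L hL) (c : ι → KK L hL)
    (h : ∑ i, (c i : GG) * u i = 0) : ∀ i, c i = 0 := by
  classical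
  set E := Fintype.equivFin ι
  intro i
  have h1 := SUI.sui s b hb hbi L hL (Fintype.card ι) (fun j => u (E.symm j)) (fun j => hu _)
    (fun j k hjk => hne _ _ fun h => hjk (E.symm.injective h)) (fun j => c (E.symm j)) (by
      rw [E.symm.sum_comp fun j => (c j : GG) * u j]; exact h) (E i)
  simpa using h1

/-- common denominators -/
lemma clr {L : ℕ → ℝ} (hL : Tendsto L atTop atTop) {ι : Type} [Fintype ι] [DecidableEq ι]
    (c : ι → KK L hL) :
    ∃ (C : ι → ℕ → ℤ) (D : ℕ → ℤ), (∀ i, Negl L (C i)) ∧ Negl L D ∧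
      (∀ᶠ n in (UU : Filter ℕ), D n ≠ 0) ∧
      ∀ i, gm (fun n => (C i n : ℚ)) = gm (fun n => (D n : ℚ)) * c i := by
  have h0 : ∀ i, ∃ m d : ℕ → ℤ, Negl L m ∧ Negl L d ∧ (∀ᶠ n in (UU : Filter ℕ), d n ≠ 0) ∧
    (c i : GG) = gm fun n => (m n : ℚ) / d n := fun i => (c i).2
  choose M d hM hd hd0 hg using h0
  have hd1 : ∀ᶠ n in (UU : Filter ℕ), ∀ i, d i n ≠ 0 := eventually_all.2 hd0
  refine ⟨fun i n => M i n * ∏ j ∈ univ.erase i, d j n, fun n => ∏ j, d j n, ?_, ?_, ?_, ?_⟩
  · intro i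
    exact (hM i).mul (SUI.Negl.prod hL _ fun j _ => hd j)
  · exact SUI.Negl.prod hL _ fun j _ => hd j
  · filter_upwards [hd1] with n hn
    exact prod_ne_zero_iff.2 fun j _ => hn j
  · intro i
    rw [hg i, gm_mul, gm_eq]
    filter_upwards [hd1] with n hn
    have h2 : (d i n : ℚ) ≠ 0 := by exact_mod_cast hn i
    push_cast
    rw [← mul_prod_erase univ (fun j => (d j n : ℚ)) (mem_univ i)]
    field_simp

theorem lemG3 {s : ℕ} {ι : Type} [Fintype ι] [DecidableEq ι] [Nonempty ι] (b : Fin s → ℕ)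
    (hb : ∀ v, (b v).Prime) (hbi : Function.Injective b) {L : ℕ → ℝ} (hL : Tendsto L atTop atTop)
    (c : ι → KK L hL) (U z : ι → ℕ → ℤ) (Y : ℕ → ℤ)
    (e : ι → Fin s → ℕ → ℕ) (hU : ∀ i n, |(U i n : ℝ)| = ∏ v, (b v : ℝ) ^ (e i v n))
    (hdv : ∀ i v n, (b v : ℤ) ^ (e i v n) ∣ U i n)
    (hrel : ∑ i, (c i : GG) * gm (fun n => ((U i n * z i n : ℤ) : ℚ)) = gm (fun n => (Y n : ℚ)))
    (hind : ∀ y : ι → ℤ, ∑ i, ((y i : ℤ) : GG) * ((c i : GG) *
      gm (fun n => ((U i n * z i n : ℤ) : ℚ))) = 0 → y = 0)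
    (c' : ℝ) (hc' : 0 ≤ c')
    (hUb : ∀ i, ∀ᶠ n in (UU : Filter ℕ), Real.log |(U i n : ℝ)| ≤ c' * L n)
    (hzb : ∀ i, ∀ᶠ n in (UU : Filter ℕ), Real.log |(z i n : ℝ)| ≤ c' * L n)
    (k0 : Option ι) (kv : Fin s → Option ι) (f : Fin s → ℕ → ℕ)
    (hf : ∀ v, kv v ≠ none → ∀ᶠ n in (UU : Filter ℕ), (b v : ℤ) ^ (f v n) ∣ Y n)
    (hfb : ∀ v, ∀ᶠ n in (UU : Filter ℕ), (f v n : ℝ) * Real.log (b v) ≤ c' * L n)
    (γ : ℝ) (hγ : 0 < γ)
    (hsum : ∀ᶠ n in (UU : Filter ℕ), ∑ i, Real.log |(z i n : ℝ)| +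
      t0 k0 (Y n) (fun i => U i n * z i n) +
      ∑ v, tv (kv v) (fun i => e i v n) (f v n) (Real.log (b v)) ≤ - γ * L n) : False := by
  obtain ⟨C, D, hC, hD, hD0, hCD⟩ := clr hL c
  -- the sum
  have hsumX : ∀ᶠ n in (UU : Filter ℕ), ∑ i, C i n * U i n * z i n = D n * Y n := by
    have h1 : gm (fun n => ((∑ i, C i n * U i n * z i n : ℤ) : ℚ)) =
        gm (fun n => ((D n * Y n : ℤ) : ℚ)) := by
      have h2 : gm (fun n => ((D n * Y n : ℤ) : ℚ)) = gm (fun n => (D n : ℚ)) * gm (fun n => (Y n : ℚ)) := by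
        rw [gm_mul]
        congr 1
        funext n
        push_cast
        rfl
      rw [h2, ← hrel, mul_sum]
      have h3 : ∀ i, gm (fun n => (D n : ℚ)) * ((c i : GG) * gm (fun n => ((U i n * z i n : ℤ) : ℚ))) =
          gm (fun n => ((C i n * U i n * z i n : ℤ) : ℚ)) := by
        intro i
        rw [← mul_assoc, ← hCD i, gm_mul]
        congr 1
        funext n
        push_cast
        ring
      rw [sum_congr rfl fun i _ => h3 i, gm_sum]
      congr 1
      funext n
      push_cast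
      rfl
    rw [gm_eq] at h1
    filter_upwards [h1] with n hn
    exact_mod_cast hn
  have hDne : gm (fun n => (D n : ℚ)) ≠ 0 := by
    rw [gm_ne_zero]
    filter_upwards [hD0] with n hn
    exact_mod_cast hn
  have hY0 : ∀ᶠ n in (UU : Filter ℕ), Y n ≠ 0 := by
    by_contra hcon
    have h1 := Ultrafilter.eventually_not.2 hcon
    have h2 : gm (fun n => (Y n : ℚ)) = 0 := by
      rw [← gm_zero, gm_eq]
      filter_upwards [h1] with n hn
      rw [not_not.1 hn]
      simp
    have h3 := hind (fun _ => 1) (by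
      simp only [Int.cast_one, one_mul]
      rw [hrel, h2])
    obtain ⟨i⟩ : Nonempty ι := inferInstance
    have := congrFun h3 i
    simp at this
  refine lemG2 b hb hbi hL C U z hC e hU hdv ?_ c' hc' hUb hzb k0 kv f ?_ hfb (γ / 2)
    (by positivity) ?_
  · intro y hy
    by_contra hcon
    have h1 := Ultrafilter.eventually_not.2 hcon
    apply hy
    apply hind
    have h2 : gm (fun n => (D n : ℚ)) * ∑ i, ((y i : ℤ) : GG) * ((c i : GG) *
        gm (fun n => ((U i n * z i n : ℤ) : ℚ))) = 0 := by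
      rw [mul_sum]
      have h3 : ∀ i, gm (fun n => (D n : ℚ)) * (((y i : ℤ) : GG) * ((c i : GG) *
          gm (fun n => ((U i n * z i n : ℤ) : ℚ)))) =
          gm (fun n => ((y i * (C i n * U i n * z i n) : ℤ) : ℚ)) := by
        intro i
        have h4 : ((y i : ℤ) : GG) = gm (fun _ => (y i : ℚ)) := rfl
        rw [h4, mul_left_comm, ← mul_assoc (gm (fun n => (D n : ℚ))), ← hCD i, gm_mul, gm_mul]
        congr 1
        funext n
        push_cast
        ring
      rw [sum_congr rfl fun i _ => h3 i, gm_sum, ← gm_zero, gm_eq]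
      filter_upwards [h1] with n hn
      have h5 := not_not.1 hn
      have h6 : ((∑ i, y i * (C i n * U i n * z i n) : ℤ) : ℚ) = 0 := by rw [h5]; simp
      push_cast at h6 ⊢
      exact h6
    exact (mul_eq_zero.1 h2).resolve_left hDne
  · intro v hv
    filter_upwards [hf v hv, hsumX] with n h1 h2
    rw [h2]
    exact Dvd.dvd.mul_left h1 _
  · filter_upwards [hsum, hsumX, hD0, hY0, hD (γ / 2) (by positivity)] with n h1 h2 h3 h4 h5
    have h6 : t0 k0 (∑ i, C i n * U i n * z i n) (fun i => U i n * z i n) ≤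
        t0 k0 (Y n) (fun i => U i n * z i n) + γ / 2 * L n := by
      have h7 : Real.log |(D n : ℝ)| ≤ γ / 2 * L n := by
        rw [← Real.log_exp (γ / 2 * L n)]
        exact Real.log_le_log (abs_pos.2 (by exact_mod_cast h3)) h5
      have h8 := log_abs_nonneg h3
      rw [h2]
      cases k0 with
      | none => simp only [t0]; linarith
      | some i =>
        simp only [t0]
        have h9 : Real.log |((D n * Y n : ℤ) : ℝ)| = Real.log |(D n : ℝ)| + Real.log |(Y n : ℝ)| := by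
          push_cast
          rw [abs_mul, Real.log_mul (abs_ne_zero.2 (by exact_mod_cast h3))
            (abs_ne_zero.2 (by exact_mod_cast h4))]
        rw [h9]
        linarith
    linarith

end Pool.Agent.J6H87.SW
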