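import Mathlib
import Pool.Agent.J6H87.SW.GC
import Pool.Agent.J6H87.SW.DA

set_option autoImplicit false

/-!
# Preparations: the units attached to the cuts
-/

open Finset Filter Topology Pool.Agent.TH932.Germs Pool.Agent.TH551.SU

namespace Pool.Agent.J6H87.SW

/-- an integer whose primes are among the `b v` -/
lemma abs_eq_prod {s : ℕ} {b : Fin s → ℕ} (hb : ∀ v, (b v).Prime) (hbi : Function.Injective b)
    {V : ℤ} (hV : V ≠ 0) (h : ∀ p : ℕ, p.Prime → (p : ℤ) ∣ V → ∃ v, b v = p) :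
    V.natAbs = ∏ v, (b v) ^ (padicValInt (b v) V) := by
  have h0 : V.natAbs ≠ 0 := Int.natAbs_ne_zero.2 hV
  have h1 : V.natAbs = V.natAbs.factorization.prod fun p k => p ^ k :=
    (Nat.prod_factorization_pow_eq_self h0).symm
  conv_lhs => rw [h1]
  rw [Finsupp.prod]
  have h2 : ∏ v, (b v) ^ (padicValInt (b v) V) =
      ∏ p ∈ univ.image b, p ^ (V.natAbs.factorization p) := by
    rw [prod_image fun x _ y _ hxy => hbi hxy]
    apply prod_congr rfl
    intro v _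
    rw [padicValInt, Nat.factorization_def _ (hb v)]
  rw [h2]
  apply prod_subset
  · intro p hp
    rw [Nat.support_factorization, Nat.mem_primeFactors] at hp
    obtain ⟨v, rfl⟩ := h p hp.1 (Int.natCast_dvd.2 hp.2.1)
    exact mem_image_of_mem _ (mem_univ _)
  · intro p _ hp
    rw [Finsupp.notMem_support_iff] at hp
    rw [hp, pow_zero]

section

variable {d δ : ℕ} {m r : ℤ → ℤ}

lemma dvd_mu (D : Dat d δ m r) {p : ℕ} (hp : p.Prime) (x : ℤ) (a l : ℕ)
    (h : (p : ℤ) ∣ mu m (wd d m r x) a l) : ∃ i ∈ range d, p ∣ (m i).natAbs := by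
  have hp' : Prime (p : ℤ) := Nat.prime_iff_prime_int.1 hp
  induction l with
  | zero =>
    rw [mu] at h
    exact absurd (Int.isUnit_iff.2 (Or.inl rfl)) (fun h1 => hp'.not_isUnit (isUnit_of_dvd_one h))
  | succ l ih =>
    rw [mu] at h
    rcases hp'.dvd_or_dvd h with h1 | h1
    · obtain ⟨i, hi, e⟩ := wd_mem D x (a + l)
      refine ⟨i, hi, ?_⟩
      rw [e] at h1
      exact Int.natCast_dvd.1 h1
    · exact ih h1

/-- the primes -/
lemma exists_b (D : Dat d δ m r) : ∃ (s : ℕ) (b : Fin s → ℕ), (∀ v, (b v).Prime) ∧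
    Function.Injective b ∧ (∀ p : ℕ, p.Prime → (p ∣ d ∨ ∃ i ∈ range d, p ∣ (m i).natAbs) →
      ∃ v, b v = p) := by
  classical
  set S : Finset ℕ := d.primeFactors ∪ (range d).biUnion fun i => (m i).natAbs.primeFactors with hS
  have hSp : ∀ p ∈ S, p.Prime := by
    intro p hp
    rw [hS, mem_union, mem_biUnion] at hp
    rcases hp with hp | ⟨i, -, hp⟩ <;> exact Nat.prime_of_mem_primeFactors hp
  refine ⟨S.card, fun v => S.orderEmbOfFin rfl v, fun v => hSp _ (S.orderEmbOfFin_mem rfl v),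
    (S.orderEmbOfFin rfl).injective, ?_⟩
  intro p hp h
  have hd0 : d ≠ 0 := by have := D.hd; omega
  have h1 : p ∈ S := by
    rw [hS, mem_union, mem_biUnion]
    rcases h with h | ⟨i, hi, h⟩
    · exact Or.inl (Nat.mem_primeFactors.2 ⟨hp, h, hd0⟩)
    · exact Or.inr ⟨i, hi, Nat.mem_primeFactors.2 ⟨hp, h, Int.natAbs_ne_zero.2 (D.ne _)⟩⟩
  have h2 : p ∈ Set.range (S.orderEmbOfFin rfl) := by rw [S.range_orderEmbOfFin]; exact h1
  obtain ⟨v, hv⟩ := h2
  exact ⟨v, hv⟩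

/-- the unit attached to the point `a` -/
def VV (d : ℕ) (m r : ℤ → ℤ) (x : ℤ) (n a : ℕ) : ℤ :=
  (d : ℤ) ^ a * mu m (wd d m r x) a (n - a)

lemma VV_ne (D : Dat d δ m r) (x : ℤ) (n a : ℕ) : VV d m r x n a ≠ 0 :=
  mul_ne_zero (pow_ne_zero _ (by have := D.hd; omega)) (mu_ne D _ _ _)

lemma VV_primes (D : Dat d δ m r) {s : ℕ} {b : Fin s → ℕ}
    (hbp : ∀ p : ℕ, p.Prime → (p ∣ d ∨ ∃ i ∈ range d, p ∣ (m i).natAbs) → ∃ v, b v = p)
    (x : ℤ) (n a : ℕ) {p : ℕ} (hp : p.Prime) (h : (p : ℤ) ∣ VV d m r x n a) : ∃ v, b v = p := by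
  have hp' : Prime (p : ℤ) := Nat.prime_iff_prime_int.1 hp
  apply hbp p hp
  rcases hp'.dvd_or_dvd h with h1 | h1
  · left
    have := hp'.dvd_of_dvd_pow h1
    exact_mod_cast this
  · right
    exact dvd_mu D hp x _ _ h1

lemma VV_abs (D : Dat d δ m r) {s : ℕ} {b : Fin s → ℕ} (hb : ∀ v, (b v).Prime)
    (hbi : Function.Injective b)
    (hbp : ∀ p : ℕ, p.Prime → (p ∣ d ∨ ∃ i ∈ range d, p ∣ (m i).natAbs) → ∃ v, b v = p)
    (x : ℤ) (n a : ℕ) : |(VV d m r x n a : ℝ)| =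
      ∏ v, (b v : ℝ) ^ (padicValInt (b v) (VV d m r x n a)) := by
  have h := abs_eq_prod hb hbi (VV_ne D x n a) fun p hp h => VV_primes D hbp x n a hp h
  have h1 : |(VV d m r x n a : ℝ)| = ((VV d m r x n a).natAbs : ℝ) := by
    rw [Nat.cast_natAbs, Int.cast_abs]
  rw [h1, h]
  push_cast
  rfl

lemma VV_SU (D : Dat d δ m r) {s : ℕ} {b : Fin s → ℕ} (hb : ∀ v, (b v).Prime)
    (hbi : Function.Injective b)
    (hbp : ∀ p : ℕ, p.Prime → (p ∣ d ∨ ∃ i ∈ range d, p ∣ (m i).natAbs) → ∃ v, b v = p)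
    (x : ℤ) (n a : ℕ) : IsSU b (VV d m r x n a : ℚ) := by
  have h := abs_eq_prod hb hbi (VV_ne D x n a) fun p hp h => VV_primes D hbp x n a hp h
  set V := VV d m r x n a with hV
  have hz : ((V.natAbs : ℕ) : ℚ) = ∏ v, (b v : ℚ) ^ ((padicValInt (b v) V : ℕ) : ℤ) := by
    rw [h]
    push_cast
    apply prod_congr rfl
    intro v _
    rw [zpow_natCast]
  rcases Int.natAbs_eq V with h1 | h1
  · refine ⟨1, fun v => ((padicValInt (b v) V : ℕ) : ℤ), Or.inl rfl, ?_⟩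
    rw [← hz, Int.cast_one, one_mul]
    have := congrArg (Int.cast : ℤ → ℚ) h1
    rwa [Int.cast_natCast] at this
  · refine ⟨-1, fun v => ((padicValInt (b v) V : ℕ) : ℤ), Or.inr rfl, ?_⟩
    rw [← hz]
    have := congrArg (Int.cast : ℤ → ℚ) h1
    rw [Int.cast_neg, Int.cast_natCast] at this
    rw [this]
    push_cast
    ring

lemma VV_split (x : ℤ) {n a c : ℕ} (hac : a ≤ c) (hcn : c ≤ n) :
    VV d m r x n a * (d : ℤ) ^ (c - a) = mu m (wd d m r x) a (c - a) * VV d m r x n c := by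
  unfold VV
  have h1 : n - a = (c - a) + (n - c) := by omega
  rw [h1, mu_add, show a + (c - a) = c by omega]
  have h2 : (d : ℤ) ^ c = (d : ℤ) ^ a * (d : ℤ) ^ (c - a) := by
    rw [← pow_add]; congr 1; omega
  rw [h2]
  ring

lemma VV_val (D : Dat d δ m r) {p : ℕ} (hp : p.Prime) (hpδ : p ∣ δ) (x : ℤ) {n a : ℕ} (han : a ≤ n) :
    padicValInt p (VV d m r x n a) + (n - a) * padicValNat p δ ≤ n * padicValNat p d := by
  have := Fact.mk hp
  unfold VV
  have hd0 : (d : ℤ) ^ a ≠ 0 := pow_ne_zero _ (by have := D.hd; omega)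
  rw [padicValInt.mul hd0 (mu_ne D _ _ _)]
  have h1 := val_mu D hp hpδ (wd d m r x) a (n - a)
  have h2 : padicValInt p ((d : ℤ) ^ a) = a * padicValNat p d := by
    have h4 : ((d : ℤ) ^ a) = ((d ^ a : ℕ) : ℤ) := by push_cast; rfl
    rw [h4, padicValInt.of_nat, padicValNat.pow]
  rw [h2]
  have h3 : n * padicValNat p d = a * padicValNat p d + (n - a) * padicValNat p d := by
    rw [← add_mul]; congr 1; omega
  omega

lemma VV_val_ge (D : Dat d δ m r) {p : ℕ} (hp : p.Prime) (x : ℤ) {n a : ℕ} :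
    a * padicValNat p d ≤ padicValInt p (VV d m r x n a) := by
  have := Fact.mk hp
  unfold VV
  have hd0 : (d : ℤ) ^ a ≠ 0 := pow_ne_zero _ (by have := D.hd; omega)
  rw [padicValInt.mul hd0 (mu_ne D _ _ _)]
  have h2 : padicValInt p ((d : ℤ) ^ a) = a * padicValNat p d := by
    have h4 : ((d : ℤ) ^ a) = ((d ^ a : ℕ) : ℤ) := by push_cast; rfl
    rw [h4, padicValInt.of_nat, padicValNat.pow]
  omega

lemma VV_le (D : Dat d δ m r) (x : ℤ) {n a : ℕ} (han : a ≤ n) :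
    |VV d m r x n a| ≤ (HH d m r : ℤ) ^ n := by
  unfold VV
  rw [abs_mul]
  have h1 := mu_le D x a (n - a)
  have h2 : |(d : ℤ) ^ a| ≤ (HH d m r : ℤ) ^ a := by
    rw [abs_of_nonneg (by positivity)]
    exact pow_le_pow_left₀ (Nat.cast_nonneg _) (by exact_mod_cast d_le_HH d m r) a
  calc |(d : ℤ) ^ a| * |mu m (wd d m r x) a (n - a)| ≤ (HH d m r : ℤ) ^ a * (HH d m r : ℤ) ^ (n - a) :=
        mul_le_mul h2 h1 (abs_nonneg _) (by positivity)
    _ = (HH d m r : ℤ) ^ n := by rw [← pow_add]; congr 1; omega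

/-- the telescoped formula -/
lemma tele (D : Dat d δ m r) {x : ℤ} {n ℓ S : ℕ} {A : ℕ → ℕ} {ξ : ℕ → ℚ}
    (hA0 : A 0 = 0) (hA : ∀ i ≤ S, A i ≤ n)
    (hPP : ∀ i < S, PP d m r x ℓ (A i) (A (i + 1)) (ξ i)) (j : ℕ) (hj : j ≤ S) :
    (VV d m r x n (A j) : ℚ) * ((((TG d m r)^[A j] x : ℤ) : ℚ) - if j < S then ξ j else 0) =
      (VV d m r x n 0 : ℚ) * x + ∑ i ∈ range (j + 1), (VV d m r x n (A i) : ℚ) *
        ((if i = 0 then 0 else ξ (i - 1)) - if i < S then ξ i else 0) := by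
  have hd0 : (d : ℚ) ≠ 0 := by have := D.hd; positivity
  induction j with
  | zero =>
    simp [hA0]
    split_ifs <;> ring
  | succ j ih =>
    have h1 := ih (by omega)
    rw [sum_range_succ, ← add_assoc, ← h1]
    have h2 := hPP j (by omega)
    have h3 := VV_split (d := d) (m := m) (r := r) x h2.le (hA (j + 1) hj)
    have h4 : (VV d m r x n (A j) : ℚ) * (d : ℚ) ^ (A (j + 1) - A j) =
        (mu m (wd d m r x) (A j) (A (j + 1) - A j) : ℚ) * VV d m r x n (A (j + 1)) := by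
      exact_mod_cast h3
    have h5 := h2.fix
    have hdp : (d : ℚ) ^ (A (j + 1) - A j) ≠ 0 := pow_ne_zero _ hd0
    rw [if_pos (show j < S by omega), if_neg (show ¬ j + 1 = 0 by omega), Nat.add_sub_cancel]
    have h6 : (VV d m r x n (A (j + 1)) : ℚ) * ((((TG d m r)^[A (j + 1)] x : ℤ) : ℚ) - ξ j) =
        (VV d m r x n (A j) : ℚ) * ((((TG d m r)^[A j] x : ℤ) : ℚ) - ξ j) := by
      rw [h5]
      field_simp
      linear_combination (-((((TG d m r)^[A j] x : ℤ) : ℚ) - ξ j)) * h4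
    linear_combination h6

end

end Pool.Agent.J6H87.SW
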