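import Mathlib
import Pool.Agent.J6H87.SW.GC

set_option autoImplicit false

/-!
# Two forms of the subspace theorem: one coordinate is replaced by the sum at some of the places
-/

open Finset Filter Topology Pool.Agent.TH932.Germs Pool.Agent.TH551.SU Pool.Agent.TH461.SST

namespace Pool.Agent.J6H87.SW

open Classical in
/-- sums of units -/
theorem lemG4 {s : ℕ} {Q : Type} [Fintype Q] (b : Fin s → ℕ)
    (hb : ∀ v, (b v).Prime) (hbi : Function.Injective b) {L : ℕ → ℝ} (hL : Tendsto L atTop atTop)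
    (U : Q → ℕ → ℤ) (e : Q → Fin s → ℕ → ℕ)
    (hU : ∀ i n, |(U i n : ℝ)| = ∏ v, (b v : ℝ) ^ (e i v n))
    (hdv : ∀ i v n, (b v : ℤ) ^ (e i v n) ∣ U i n)
    (hSU : ∀ i, GSU b (gm fun n => (U i n : ℚ)))
    (hne : ∀ i j, i ≠ j → (gm fun n => (U i n : ℚ)) / (gm fun n => (U j n : ℚ)) ∉ KK L hL)
    (a : Q → KK L hL) (Y : ℕ → ℤ)
    (hrel : ∑ i, (a i : GG) * gm (fun n => (U i n : ℚ)) = gm (fun n => (Y n : ℚ)))
    (c' : ℝ) (hc' : 0 ≤ c')
    (hUb : ∀ i, ∀ᶠ n in (UU : Filter ℕ), Real.log |(U i n : ℝ)| ≤ c' * L n)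
    (q0 : Q) (hq0 : a q0 ≠ 0) (θ0 : Prop) (θ : Fin s → Prop) (f : Fin s → ℕ → ℕ)
    (hf : ∀ v, θ v → ∀ᶠ n in (UU : Filter ℕ), (b v : ℤ) ^ (f v n) ∣ Y n)
    (hfb : ∀ v, ∀ᶠ n in (UU : Filter ℕ), (f v n : ℝ) * Real.log (b v) ≤ c' * L n)
    (γ : ℝ) (hγ : 0 < γ)
    (hsum : ∀ᶠ n in (UU : Filter ℕ), (if θ0 then Real.log |(Y n : ℝ)| - Real.log |(U q0 n : ℝ)| else 0) +
      ∑ v, (if θ v then ((e q0 v n : ℝ) - f v n) * Real.log (b v) else 0) ≤ - γ * L n) : False := by
  let q1 : {q // a q ≠ 0} := ⟨q0, hq0⟩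
  have : Nonempty {q // a q ≠ 0} := ⟨q1⟩
  refine lemG3 (ι := {q // a q ≠ 0}) b hb hbi hL (fun q => a q.1) (fun q => U q.1) (fun _ _ => 1) Y
    (fun q => e q.1) (fun q n => hU q.1 n) (fun q v n => hdv q.1 v n) ?_ ?_ c' hc' (fun q => hUb q.1)
    ?_ (if θ0 then some q1 else none) (fun v => if θ v then some q1 else none) f ?_ hfb γ hγ ?_
  · simp only [mul_one]
    rw [← hrel]
    have h1 : ∑ q : {q // a q ≠ 0}, (a q.1 : GG) * gm (fun n => (U q.1 n : ℚ)) =
        ∑ q ∈ univ.filter (fun q => a q ≠ 0), (a q : GG) * gm (fun n => (U q n : ℚ)) :=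
      (Finset.sum_subtype (univ.filter fun q => a q ≠ 0) (by simp)
        (fun q => (a q : GG) * gm (fun n => (U q n : ℚ)))).symm
    rw [h1]
    apply sum_filter_of_ne
    intro q _ hq h0
    apply hq
    rw [h0]
    simp
  · intro y hy
    simp only [mul_one] at hy
    have h1 := sui' b hb hbi hL (fun q : {q // a q ≠ 0} => gm (fun n => (U q.1 n : ℚ)))
      (fun q => hSU q.1) (fun i j hij => hne i.1 j.1 fun h => hij (Subtype.ext h))
      (fun q => ((y q : ℤ) : KK L hL) * a q.1) (by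
        rw [← hy]
        apply sum_congr rfl
        intro q _
        rw [MulMemClass.coe_mul, SubringClass.coe_intCast, mul_assoc])
    funext q
    have h2 := (mul_eq_zero.1 (h1 q)).resolve_right q.2
    exact_mod_cast h2
  · intro q
    filter_upwards [L_nonneg hL] with n hn
    simp only [Int.cast_one, abs_one, Real.log_one]
    positivity
  · intro v hv
    apply hf v
    by_contra h
    apply hv
    rw [if_neg h]
  · filter_upwards [hsum] with n hn
    refine le_trans (le_of_eq ?_) hn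
    have h1 : ∑ q : {q // a q ≠ 0}, Real.log |(((1 : ℤ)) : ℝ)| = 0 := by simp
    rw [h1, zero_add]
    congr 1
    · by_cases h : θ0
      · simp [h, t0, q1]
      · simp [h, t0]
    · apply sum_congr rfl
      intro v _
      by_cases h : θ v
      · simp [h, tv, q1]
      · simp [h, tv]

open Classical in
/-- sums of units and of one product of a unit and an integer -/
theorem lemG5 {s : ℕ} {Q : Type} [Fintype Q] (b : Fin s → ℕ)
    (hb : ∀ v, (b v).Prime) (hbi : Function.Injective b) {L : ℕ → ℝ} (hL : Tendsto L atTop atTop)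
    (U : Q → ℕ → ℤ) (e : Q → Fin s → ℕ → ℕ)
    (hU : ∀ i n, |(U i n : ℝ)| = ∏ v, (b v : ℝ) ^ (e i v n))
    (hdv : ∀ i v n, (b v : ℤ) ^ (e i v n) ∣ U i n)
    (hSU : ∀ i, GSU b (gm fun n => (U i n : ℚ)))
    (hne : ∀ i j, i ≠ j → (gm fun n => (U i n : ℚ)) / (gm fun n => (U j n : ℚ)) ∉ KK L hL)
    (a : Q → KK L hL) (Y : ℕ → ℤ)
    (W z : ℕ → ℤ) (eW : Fin s → ℕ → ℕ) (hW : ∀ n, |(W n : ℝ)| = ∏ v, (b v : ℝ) ^ (eW v n))
    (hdW : ∀ v n, (b v : ℤ) ^ (eW v n) ∣ W n)
    (hrel : gm (fun n => ((W n * z n : ℤ) : ℚ)) + ∑ i, (a i : GG) * gm (fun n => (U i n : ℚ)) =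
      gm (fun n => (Y n : ℚ)))
    (hspan : ∀ c : Q → KK L hL, gm (fun n => ((W n * z n : ℤ) : ℚ)) ≠
      ∑ i, (c i : GG) * gm (fun n => (U i n : ℚ)))
    (c' : ℝ) (hc' : 0 ≤ c')
    (hUb : ∀ i, ∀ᶠ n in (UU : Filter ℕ), Real.log |(U i n : ℝ)| ≤ c' * L n)
    (hWb : ∀ᶠ n in (UU : Filter ℕ), Real.log |(W n : ℝ)| ≤ c' * L n)
    (hzb : ∀ᶠ n in (UU : Filter ℕ), Real.log |(z n : ℝ)| ≤ c' * L n)
    (θ : Fin s → Prop) (f : Fin s → ℕ → ℕ)
    (hf : ∀ v, θ v → ∀ᶠ n in (UU : Filter ℕ), (b v : ℤ) ^ (f v n) ∣ Y n)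
    (hfb : ∀ v, ∀ᶠ n in (UU : Filter ℕ), (f v n : ℝ) * Real.log (b v) ≤ c' * L n)
    (γ : ℝ) (hγ : 0 < γ)
    (hsum : ∀ᶠ n in (UU : Filter ℕ), Real.log |(z n : ℝ)| +
      ∑ v, (if θ v then ((eW v n : ℝ) - f v n) * Real.log (b v) else 0) ≤ - γ * L n) : False := by
  have hsub : ∀ F : Q → GG, (∀ q, a q = 0 → F q = 0) →
      ∑ q : {q // a q ≠ 0}, F q.1 = ∑ q, F q := by
    intro F hF
    have h1 : ∑ q : {q // a q ≠ 0}, F q.1 = ∑ q ∈ univ.filter (fun q => a q ≠ 0), F q :=
      (Finset.sum_subtype (univ.filter fun q => a q ≠ 0) (by simp) F).symm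
    rw [h1]
    apply sum_filter_of_ne
    intro q _ hq h0
    exact hq (hF q h0)
  refine lemG3 (ι := Option {q // a q ≠ 0}) b hb hbi hL
    (fun o => match o with | none => 1 | some q => a q.1)
    (fun o => match o with | none => W | some q => U q.1)
    (fun o => match o with | none => z | some _ => fun _ => 1) Y
    (fun o => match o with | none => eW | some q => e q.1) ?_ ?_ ?_ ?_ c' hc' ?_ ?_ none
    (fun v => if θ v then some none else none) f ?_ hfb γ hγ ?_
  · rintro (_ | q) n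
    · exact hW n
    · exact hU q.1 n
  · rintro (_ | q) v n
    · exact hdW v n
    · exact hdv q.1 v n
  · rw [Fintype.sum_option]
    simp only [mul_one, OneMemClass.coe_one, one_mul]
    rw [hsub (fun q => (a q : GG) * gm (fun n => (U q n : ℚ))) (fun q hq => by rw [hq]; simp)]
    exact hrel
  · intro y hy
    rw [Fintype.sum_option] at hy
    simp only [mul_one, OneMemClass.coe_one, one_mul] at hy
    have hn : y none = 0 := by
      by_contra hn
      have hnG : ((y none : ℤ) : GG) ≠ 0 := by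
        have h1 : ((y none : ℤ) : GG) = gm (fun _ => (y none : ℚ)) := rfl
        rw [h1, gm_ne_zero]
        exact Eventually.of_forall fun _ => by exact_mod_cast hn
      have hnK : ((y none : ℤ) : KK L hL) ≠ 0 := by
        intro h0
        apply hnG
        have := congrArg (fun k : KK L hL => (k : GG)) h0
        simpa using this
      apply hspan (fun q => if hq : a q ≠ 0 then -(((y (some ⟨q, hq⟩) : ℤ) : KK L hL) * a q) /
        ((y none : ℤ) : KK L hL) else 0)
      have h2 : ∑ q : {q // a q ≠ 0}, ((y (some q) : ℤ) : GG) * ((a q.1 : GG) *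
          gm (fun n => (U q.1 n : ℚ))) = ∑ q : Q, (if hq : a q ≠ 0 then
            ((y (some ⟨q, hq⟩) : ℤ) : GG) * ((a q : GG) * gm (fun n => (U q n : ℚ))) else 0) := by
        rw [← hsub (fun q => if hq : a q ≠ 0 then
            ((y (some ⟨q, hq⟩) : ℤ) : GG) * ((a q : GG) * gm (fun n => (U q n : ℚ))) else 0)
            (fun q hq => by simp [hq])]
        apply sum_congr rfl
        intro q _
        rw [dif_pos q.2]
      rw [h2] at hy
      have h3 : gm (fun n => ((W n * z n : ℤ) : ℚ)) = -(∑ q : Q, (if hq : a q ≠ 0 then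
            ((y (some ⟨q, hq⟩) : ℤ) : GG) * ((a q : GG) * gm (fun n => (U q n : ℚ))) else 0)) /
            ((y none : ℤ) : GG) := by
        rw [eq_div_iff hnG]
        linear_combination hy
      rw [h3, ← sum_neg_distrib, sum_div]
      apply sum_congr rfl
      intro q _
      by_cases hq : a q ≠ 0
      · rw [dif_pos hq, dif_pos hq]
        push_cast
        ring
      · rw [dif_neg hq, dif_neg hq]
        simp
    rw [hn] at hy
    simp only [Int.cast_zero, zero_mul, zero_add] at hy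
    have h1 := sui' b hb hbi hL (fun q : {q // a q ≠ 0} => gm (fun n => (U q.1 n : ℚ)))
      (fun q => hSU q.1) (fun i j hij => hne i.1 j.1 fun h => hij (Subtype.ext h))
      (fun q => ((y (some q) : ℤ) : KK L hL) * a q.1) (by
        rw [← hy]
        apply sum_congr rfl
        intro q _
        rw [MulMemClass.coe_mul, SubringClass.coe_intCast, mul_assoc])
    funext o
    rcases o with _ | q
    · exact hn
    · have h2 := (mul_eq_zero.1 (h1 q)).resolve_right q.2
      exact_mod_cast h2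
  · rintro (_ | q)
    · exact hWb
    · exact hUb q.1
  · rintro (_ | q)
    · exact hzb
    · filter_upwards [L_nonneg hL] with n hn
      simp only [Int.cast_one, abs_one, Real.log_one]
      positivity
  · intro v hv
    apply hf v
    by_contra h
    apply hv
    rw [if_neg h]
  · filter_upwards [hsum] with n hn
    refine le_trans (le_of_eq ?_) hn
    rw [Fintype.sum_option]
    simp only [Int.cast_one, abs_one, Real.log_one, sum_const_zero, add_zero, t0]
    congr 1
    apply sum_congr rfl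
    intro v _
    by_cases h : θ v
    · simp [h, tv]
    · simp [h, tv]

end Pool.Agent.J6H87.SW
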