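import Mathlib
import Pool.Agent.J6H87.SW.FA
import Pool.Agent.J6H87.SW.FB

set_option autoImplicit false

/-!
# The germs attached to a sequence of counterexamples
-/

open Finset Filter Topology Pool.Agent.TH932.Germs Pool.Agent.TH551.SU

namespace Pool.Agent.J6H87.SW

/-- sequences of trajectories whose residue words consist of `S` powers of short words -/
structure Seqs (d δ : ℕ) (m r : ℤ → ℤ) (S : ℕ) (η : ℝ) (x : ℕ → ℤ) (N ℓ : ℕ → ℕ)
    (A : ℕ → ℕ → ℕ) (ξ : ℕ → ℕ → ℚ) : Prop where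
  hN : ∀ t, t ≤ N t
  hℓ : ∀ t : ℕ, ((t : ℝ) + 1) * ℓ t ≤ N t
  hA0 : ∀ t, A t 0 = 0
  hAS : ∀ t, A t S = N t
  hPP : ∀ t, ∀ i < S, PP d m r (x t) (ℓ t) (A t i) (A t (i + 1)) (ξ t i)
  hx : ∀ t, (1 + η) * Real.log |(x t : ℝ)| ≤ N t * Real.log δ

section

variable {d δ : ℕ} {m r : ℤ → ℤ} {S : ℕ} {η : ℝ} {x : ℕ → ℤ} {N ℓ : ℕ → ℕ}
  {A : ℕ → ℕ → ℕ} {ξ : ℕ → ℕ → ℚ}

lemma Seqs.mono (h : Seqs d δ m r S η x N ℓ A ξ) (t : ℕ) {i j : ℕ} (hij : i ≤ j) (hj : j ≤ S) :
    A t i ≤ A t j := by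
  induction j, hij using Nat.le_induction with
  | base => exact le_rfl
  | succ j hij ih => exact (ih (by omega)).trans (h.hPP t j (by omega)).le

lemma Seqs.le_N (h : Seqs d δ m r S η x N ℓ A ξ) (t : ℕ) {i : ℕ} (hi : i ≤ S) : A t i ≤ N t := by
  rw [← h.hAS t]
  exact h.mono t hi le_rfl

lemma Seqs.tendsto (h : Seqs d δ m r S η x N ℓ A ξ) :
    Tendsto (fun t => (N t : ℝ)) atTop atTop :=
  tendsto_atTop_mono (fun t => by exact_mod_cast h.hN t) tendsto_natCast_atTop_atTop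

/-- powers with negligible exponents are negligible -/
lemma negl_pow {L : ℕ → ℝ} (hL : Tendsto L atTop atTop) {B : ℕ} (hB : 1 ≤ B) {k : ℕ → ℕ}
    (hk : ∀ ε : ℝ, 0 < ε → ∀ᶠ t in (UU : Filter ℕ), (k t : ℝ) ≤ ε * L t) {a : ℕ → ℤ}
    (ha : ∀ᶠ t in (UU : Filter ℕ), |a t| ≤ (B : ℤ) ^ k t) : Negl L a := by
  intro ε hε
  have hlB : 0 ≤ Real.log B := Real.log_nonneg (by exact_mod_cast hB)
  have hB0 : (0 : ℝ) < B := by exact_mod_cast hB
  filter_upwards [hk (ε / (Real.log B + 1)) (by positivity), ha, L_nonneg hL] with t h1 h2 h3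
  have h4 : |(a t : ℝ)| ≤ (B : ℝ) ^ k t := by exact_mod_cast h2
  refine h4.trans ?_
  have h5 : (B : ℝ) ^ k t = Real.exp (k t * Real.log B) := by
    rw [mul_comm, Real.exp_mul, Real.exp_log hB0, Real.rpow_natCast]
  rw [h5, Real.exp_le_exp]
  calc (k t : ℝ) * Real.log B ≤ ε / (Real.log B + 1) * L t * Real.log B :=
        mul_le_mul_of_nonneg_right h1 hlB
    _ = ε * L t * (Real.log B / (Real.log B + 1)) := by ring
    _ ≤ ε * L t * 1 := by
      apply mul_le_mul_of_nonneg_left _ (by positivity)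
      rw [div_le_one (by linarith)]
      linarith
    _ = ε * L t := mul_one _

/-- the germ attached to the `i`-th cut -/
noncomputable def gg (d : ℕ) (m r : ℤ → ℤ) (x : ℕ → ℤ) (N : ℕ → ℕ) (A : ℕ → ℕ → ℕ) (i : ℕ) : GG :=
  gm fun t => (VV d m r (x t) (N t) (A t i) : ℚ)

lemma gg_ne (D : Dat d δ m r) (i : ℕ) : gg d m r x N A i ≠ 0 := by
  unfold gg
  rw [gm_ne_zero]
  exact Eventually.of_forall fun t => by exact_mod_cast VV_ne D (x t) (N t) (A t i)

lemma gg_div (D : Dat d δ m r) (h : Seqs d δ m r S η x N ℓ A ξ) {i j : ℕ} (hij : i ≤ j)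
    (hj : j ≤ S) : gg d m r x N A i / gg d m r x N A j = gm fun t =>
      ((mu m (wd d m r (x t)) (A t i) (A t j - A t i) : ℤ) : ℚ) /
        ((((d : ℤ) ^ (A t j - A t i) : ℤ)) : ℚ) := by
  unfold gg
  rw [gm_div]
  congr 1
  funext t
  have hd0 : (d : ℚ) ≠ 0 := by have := D.hd; positivity
  have h1 := VV_split (d := d) (m := m) (r := r) (x t) (h.mono t hij hj) (h.le_N t hj)
  have h2 : (VV d m r (x t) (N t) (A t i) : ℚ) * (d : ℚ) ^ (A t j - A t i) =
      (mu m (wd d m r (x t)) (A t i) (A t j - A t i) : ℚ) * VV d m r (x t) (N t) (A t j) := by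
    exact_mod_cast h1
  have h3 : (VV d m r (x t) (N t) (A t j) : ℚ) ≠ 0 := by exact_mod_cast VV_ne D _ _ _
  rw [div_eq_div_iff h3 (by push_cast; exact pow_ne_zero _ hd0)]
  push_cast
  exact h2

/-- short distances give equivalent germs -/
lemma key2 (D : Dat d δ m r) (h : Seqs d δ m r S η x N ℓ A ξ) {i j : ℕ} (hij : i ≤ j) (hj : j ≤ S)
    (hs : ∀ ε : ℝ, 0 < ε → ∀ᶠ t in (UU : Filter ℕ), ((A t j - A t i : ℕ) : ℝ) ≤ ε * N t) :
    gg d m r x N A i / gg d m r x N A j ∈ KK _ h.tendsto := by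
  have hH : 1 ≤ HH d m r := by
    have h1 := D.hd
    have h2 := d_le_HH d m r
    omega
  refine ⟨fun t => mu m (wd d m r (x t)) (A t i) (A t j - A t i), fun t => (d : ℤ) ^ (A t j - A t i),
    ?_, ?_, ?_, gg_div D h hij hj⟩
  · exact negl_pow h.tendsto hH hs (Eventually.of_forall fun t => mu_le D (x t) _ _)
  · refine negl_pow h.tendsto (by have := D.hd; omega : 1 ≤ d) hs (Eventually.of_forall fun t => ?_)
    rw [abs_of_nonneg (by positivity)]
  · exact Eventually.of_forall fun t => pow_ne_zero _ (by have := D.hd; omega)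

/-- equivalent germs have short distances -/
lemma key1 (D : Dat d δ m r) (h : Seqs d δ m r S η x N ℓ A ξ) {i j : ℕ} (hij : i ≤ j) (hj : j ≤ S)
    (hK : gg d m r x N A i / gg d m r x N A j ∈ KK _ h.tendsto) {ε : ℝ} (hε : 0 < ε) :
    ∀ᶠ t in (UU : Filter ℕ), ((A t j - A t i : ℕ) : ℝ) ≤ ε * N t := by
  rw [gg_div D h hij hj, mem_KK_iff] at hK
  obtain ⟨p, hp, hpδ⟩ := exists_p D
  have := Fact.mk hp
  have hl2 : 0 < Real.log 2 := Real.log_pos (by norm_num)
  filter_upwards [hK.2 (ε * Real.log 2) (by positivity)] with t ht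
  set len := A t j - A t i with hlen
  set M := mu m (wd d m r (x t)) (A t i) len with hM
  set q : ℚ := ((M : ℤ) : ℚ) / ((((d : ℤ) ^ len : ℤ)) : ℚ) with hq
  have hM0 : M ≠ 0 := mu_ne D _ _ _
  have hd0 : (d : ℤ) ^ len ≠ 0 := pow_ne_zero _ (by have := D.hd; omega)
  have hMq : (M : ℚ) ≠ 0 := by exact_mod_cast hM0
  have hdq : (((d : ℤ) ^ len : ℤ) : ℚ) ≠ 0 := by exact_mod_cast hd0
  have h1 : padicValRat p q = padicValInt p M - (len * padicValNat p d : ℕ) := by
    rw [hq, padicValRat.div hMq hdq, padicValRat.of_int, padicValRat.of_int]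
    congr 2
    have h4 : ((d : ℤ) ^ len) = ((d ^ len : ℕ) : ℤ) := by push_cast; rfl
    rw [h4, padicValInt.of_nat, padicValNat.pow]
  have h2 := val_mu D hp hpδ (wd d m r (x t)) (A t i) len
  rw [← hM] at h2
  have h3 : 1 ≤ padicValNat p δ := one_le_padicValNat_of_dvd (by have := D.hδ; omega) hpδ
  have h4 : len * 1 ≤ len * padicValNat p δ := Nat.mul_le_mul_left _ h3
  have h5 : (len : ℤ) ≤ padicValNat p q.den := by
    have h6 : padicValRat p q = padicValInt p q.num - padicValNat p q.den := rfl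
    rw [h6] at h1
    have h7 : (0 : ℤ) ≤ (padicValInt p q.num : ℤ) := Nat.cast_nonneg _
    have h8 : ((padicValInt p M : ℕ) : ℤ) + len * 1 ≤ (len * padicValNat p d : ℕ) := by
      have : padicValInt p M + len * 1 ≤ len * padicValNat p d := by omega
      exact_mod_cast this
    linarith
  have h6 : p ^ len ∣ q.den := (pow_dvd_pow p (by exact_mod_cast h5)).trans pow_padicValNat_dvd
  have h7 : p ^ len ≤ q.den := Nat.le_of_dvd q.den_pos h6
  have h8 : (2 : ℝ) ^ len ≤ Real.exp (ε * Real.log 2 * N t) := by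
    have h9 : (2 : ℝ) ^ len ≤ (p : ℝ) ^ len :=
      pow_le_pow_left₀ (by norm_num) (by exact_mod_cast hp.two_le) _
    have h10 : ((p : ℝ)) ^ len ≤ (q.den : ℝ) := by exact_mod_cast h7
    have h11 : |(((q.den : ℤ)) : ℝ)| = (q.den : ℝ) := by
      rw [Int.cast_natCast, Nat.abs_cast]
    rw [h11] at ht
    exact h9.trans (h10.trans ht)
  have h9 := Real.log_le_log (by positivity) h8
  rw [Real.log_pow, Real.log_exp] at h9
  have h10 : (len : ℝ) * Real.log 2 ≤ ε * N t * Real.log 2 := by linarith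
  exact le_of_mul_le_mul_right h10 hl2

/-- the coefficient attached to the `i`-th cut -/
def EE (S : ℕ) (ξ : ℕ → ℕ → ℚ) (i t : ℕ) : ℚ :=
  (if i = 0 then 0 else ξ t (i - 1)) - if i < S then ξ t i else 0

lemma xi_mem (D : Dat d δ m r) (h : Seqs d δ m r S η x N ℓ A ξ) {i : ℕ} (hi : i < S) :
    gm (fun t => ξ t i) ∈ KK _ h.tendsto := by
  have hH : 1 ≤ 2 * HH d m r := by
    have h1 := D.hd
    have h2 := d_le_HH d m r
    omega
  have hk : ∀ ε : ℝ, 0 < ε → ∀ᶠ t in (UU : Filter ℕ), (ℓ t : ℝ) ≤ ε * N t := by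
    intro ε hε
    obtain ⟨k, hk⟩ := exists_nat_ge (1 / ε)
    filter_upwards [ev_of_atTop (eventually_ge_atTop k)] with t ht
    have h1 := h.hℓ t
    have h2 : 1 / ε ≤ (t : ℝ) := hk.trans (by exact_mod_cast ht)
    rw [div_le_iff₀ hε] at h2
    have h3 : (0 : ℝ) ≤ ℓ t := Nat.cast_nonneg _
    calc (ℓ t : ℝ) ≤ ((t : ℝ) * ε) * ℓ t := by nlinarith
      _ ≤ ε * (((t : ℝ) + 1) * ℓ t) := by nlinarith
      _ ≤ ε * N t := mul_le_mul_of_nonneg_left h1 hε.le
  rw [mem_KK_iff]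
  constructor
  · refine negl_pow h.tendsto hH hk (Eventually.of_forall fun t => ?_)
    push_cast
    exact (h.hPP t i hi).num
  · refine negl_pow h.tendsto hH hk (Eventually.of_forall fun t => ?_)
    rw [abs_of_nonneg (by positivity)]
    push_cast
    exact (h.hPP t i hi).den

lemma EE_mem (D : Dat d δ m r) (h : Seqs d δ m r S η x N ℓ A ξ) {i : ℕ} (hi : i ≤ S) :
    gm (EE S ξ i) ∈ KK _ h.tendsto := by
  have e : gm (EE S ξ i) = gm (fun t => if i = 0 then 0 else ξ t (i - 1)) -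
      gm (fun t => if i < S then ξ t i else 0) := by
    rw [gm_sub]
    rfl
  rw [e]
  apply Subfield.sub_mem
  · by_cases h0 : i = 0
    · simp only [h0, if_true]
      exact Subfield.zero_mem _
    · simp only [h0, if_false]
      exact xi_mem D h (by omega)
  · by_cases h0 : i < S
    · simp only [h0, if_true]
      exact xi_mem D h h0
    · simp only [h0, if_false]
      exact Subfield.zero_mem _

end

end Pool.Agent.J6H87.SW
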