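import Mathlib
import Pool.Agent.J6H87.SW.FC

set_option autoImplicit false

/-!
# A term of the trajectory is the fixed point of the next word
-/

open Finset Filter Topology Pool.Agent.TH932.Germs Pool.Agent.TH551.SU

namespace Pool.Agent.J6H87.SW

section

variable {d δ : ℕ} {m r : ℤ → ℤ} {S : ℕ} {η : ℝ} {x : ℕ → ℤ} {N ℓ : ℕ → ℕ}
  {A : ℕ → ℕ → ℕ} {ξ : ℕ → ℕ → ℚ}

lemma δ_dvd (D : Dat d δ m r) : δ ∣ d := (Dvd.intro _ rfl).trans (D.dv 0)

/-- logarithm of a number whose primes are among the `b v` -/
lemma log_sum {s : ℕ} {b : Fin s → ℕ} (hb : ∀ v, (b v).Prime) (hbi : Function.Injective b)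
    {V : ℤ} (hV : V ≠ 0) (h : ∀ p : ℕ, p.Prime → (p : ℤ) ∣ V → ∃ v, b v = p) :
    Real.log |(V : ℝ)| = ∑ v, (padicValInt (b v) V : ℝ) * Real.log (b v) := by
  have h1 := abs_eq_prod hb hbi hV h
  have h2 : |(V : ℝ)| = ((V.natAbs : ℕ) : ℝ) := by rw [Nat.cast_natAbs, Int.cast_abs]
  rw [h2, h1]
  push_cast
  rw [Real.log_prod]
  · exact sum_congr rfl fun v _ => Real.log_pow _ _
  · intro v _
    have := (hb v).pos
    positivity

lemma ite_dec {α : Type} (p : Prop) (i1 i2 : Decidable p) (a b : α) :
    @ite α p i1 a b = @ite α p i2 a b := by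
  by_cases h : p
  · rw [@if_pos _ i1 h, @if_pos _ i2 h]
  · rw [@if_neg _ i1 h, @if_neg _ i2 h]

open Classical in
theorem main_germ (D : Dat d δ m r) (hη : 0 < η) (h : Seqs d δ m r S η x N ℓ A ξ) :
    ∃ j < S, ∀ᶠ t in (UU : Filter ℕ), A t j < A t (j + 1) ∧
      (((TG d m r)^[A t j] (x t) : ℤ) : ℚ) = ξ t j := by
  obtain ⟨s, b, hb, hbi, hbp⟩ := exists_b D
  have hL := h.tendsto
  have hd2 := D.hd
  have hδ2 := D.hδ
  have hd0 : d ≠ 0 := by omega
  have hδ0 : δ ≠ 0 := by omega
  have hb2 : ∀ v, 2 ≤ b v := fun v => (hb v).two_le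
  have hlb : ∀ v, 0 < Real.log (b v) := fun v => Real.log_pos (by exact_mod_cast hb2 v)
  have hlδ : 0 < Real.log δ := Real.log_pos (by exact_mod_cast hδ2)
  have hld : 0 < Real.log d := Real.log_pos (by exact_mod_cast hd2)
  have hδd : δ ≤ d := Nat.le_of_dvd (by omega) (δ_dvd D)
  have hdH := d_le_HH d m r
  have hldδ : Real.log δ ≤ Real.log d :=
    Real.log_le_log (by positivity) (by exact_mod_cast hδd)
  have hldH : Real.log d ≤ Real.log (HH d m r) :=
    Real.log_le_log (by positivity) (by exact_mod_cast hdH)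
  -- the logarithms of d and δ
  have hlogd : Real.log d = ∑ v, (padicValNat (b v) d : ℝ) * Real.log (b v) := by
    have h1 := log_sum hb hbi (V := (d : ℤ)) (by exact_mod_cast hd0)
      (fun p hp h1 => hbp p hp (Or.inl (by exact_mod_cast h1)))
    simp only [padicValInt.of_nat, Int.cast_natCast, Nat.abs_cast] at h1
    exact h1
  have hlogδ : Real.log δ = ∑ v, (padicValNat (b v) δ : ℝ) * Real.log (b v) := by
    have h1 := log_sum hb hbi (V := (δ : ℤ)) (by exact_mod_cast hδ0)
      (fun p hp h1 => hbp p hp (Or.inl (Dvd.dvd.trans (by exact_mod_cast h1) (δ_dvd D))))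
    simp only [padicValInt.of_nat, Int.cast_natCast, Nat.abs_cast] at h1
    exact h1
  have hlogδ' : ∑ v, (if b v ∣ δ then (padicValNat (b v) δ : ℝ) * Real.log (b v) else 0) =
      Real.log δ := by
    rw [hlogδ]
    apply sum_congr rfl
    intro v _
    by_cases hv : b v ∣ δ
    · rw [if_pos hv]
    · rw [if_neg hv, padicValNat.eq_zero_of_not_dvd hv]
      simp
  have hlogd' : ∑ v, (if b v ∣ δ then (padicValNat (b v) d : ℝ) * Real.log (b v) else 0) ≤
      Real.log d := by
    rw [hlogd]
    apply sum_le_sum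
    intro v _
    have : 0 ≤ (padicValNat (b v) d : ℝ) * Real.log (b v) :=
      mul_nonneg (Nat.cast_nonneg _) (hlb v).le
    split_ifs
    · exact le_rfl
    · exact this
  -- the units
  have hVle : ∀ t, ∀ i ≤ S, Real.log |(VV d m r (x t) (N t) (A t i) : ℝ)| ≤
      Real.log (HH d m r) * N t := by
    intro t i hi
    have h1 := VV_le D (x t) (h.le_N t hi)
    have h2 : |(VV d m r (x t) (N t) (A t i) : ℝ)| ≤ (HH d m r : ℝ) ^ N t := by exact_mod_cast h1
    have h3 : (0 : ℝ) < |(VV d m r (x t) (N t) (A t i) : ℝ)| :=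
      abs_pos.2 (by exact_mod_cast VV_ne D _ _ _)
    have h4 := Real.log_le_log h3 h2
    rw [Real.log_pow] at h4
    linarith
  have hVlog : ∀ t a, Real.log |(VV d m r (x t) (N t) a : ℝ)| =
      ∑ v, (padicValInt (b v) (VV d m r (x t) (N t) a) : ℝ) * Real.log (b v) := by
    intro t a
    exact log_sum hb hbi (VV_ne D _ _ _) fun p hp h1 => VV_primes D hbp _ _ _ hp h1
  -- the classes
  set G : Fin (S + 1) → GG := fun i => gg d m r x N A i with hG
  have hG0 : ∀ i, G i ≠ 0 := fun i => gg_ne D i
  let st : Setoid (Fin (S + 1)) := ⟨fun i j => G i / G j ∈ KK _ hL,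
    ⟨fun i => by rw [div_self (hG0 i)]; exact (KK _ hL).one_mem,
     fun {i j} h => by rw [← inv_div]; exact (KK _ hL).inv_mem h,
     fun {i j k} h1 h2 => by
      rw [← div_mul_div_cancel₀ (hG0 j)]; exact (KK _ hL).mul_mem h1 h2⟩⟩
  have hst : ∀ i j : Fin (S + 1), (Quotient.mk st i = Quotient.mk st j) ↔ G i / G j ∈ KK _ hL :=
    fun i j => Quotient.eq
  have hfin : Finite (Quotient st) := inferInstance
  let hft : Fintype (Quotient st) := Fintype.ofFinite _
  have hout : ∀ q : Quotient st, Quotient.mk st q.out = q := fun q => Quotient.out_eq q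
  have hrp : ∀ i : Fin (S + 1), G i / G (Quotient.mk st i).out ∈ KK _ hL := by
    intro i
    rw [← hst, hout]
  -- the interval property
  have hint : ∀ i k j : Fin (S + 1), i ≤ k → k ≤ j → Quotient.mk st i = Quotient.mk st j →
      Quotient.mk st i = Quotient.mk st k := by
    intro i k j hik hkj hij
    rw [hst] at hij ⊢
    apply key2 D h hik (by omega)
    intro ε hε
    filter_upwards [key1 D h (hik.trans hkj) (by omega) hij hε] with t ht
    refine le_trans ?_ ht
    have h1 := h.mono t (show (k : ℕ) ≤ j from hkj) (by omega)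
    exact_mod_cast Nat.sub_le_sub_right h1 _
  have h0S : Quotient.mk st 0 ≠ Quotient.mk st (Fin.last S) := by
    intro h1
    rw [hst] at h1
    have h2 := key1 D h (Nat.zero_le S) le_rfl h1 (ε := 1 / 2) (by norm_num)
    obtain ⟨t, h3, h4⟩ := (h2.and (ev_of_atTop (eventually_ge_atTop 1))).exists
    rw [h.hAS, h.hA0, Nat.sub_zero] at h3
    have h5 : (1 : ℝ) ≤ N t := by exact_mod_cast (show 1 ≤ t from h4).trans (h.hN t)
    linarith
  -- the coefficients
  set E : Fin (S + 1) → KK _ hL := fun i => ⟨gm (EE S ξ i), EE_mem D h (by omega)⟩ with hE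
  set κ : Quotient st → KK _ hL := fun q => ∑ i : Fin (S + 1) with Quotient.mk st i = q,
    E i * ⟨G i / G (Quotient.mk st i).out, hrp i⟩ with hκ
  have hκq : ∀ q : Quotient st, (κ q : GG) * G q.out =
      ∑ i : Fin (S + 1) with Quotient.mk st i = q, (E i : GG) * G i := by
    intro q
    rw [hκ]
    simp only
    rw [AddSubmonoidClass.coe_finsetSum, Finset.sum_mul]
    refine Finset.sum_congr rfl fun i hi => ?_
    rw [Finset.mem_filter] at hi
    obtain ⟨-, rfl⟩ := hi
    rw [MulMemClass.coe_mul, mul_assoc]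
    congr 1
    exact div_mul_cancel₀ _ (hG0 (Quotient.mk st i).out)
  set P : GG := gm (fun t => ((VV d m r (x t) (N t) 0 * x t : ℤ) : ℚ)) with hP
  -- the telescoped formula
  have htele : ∀ j : Fin (S + 1), gm (fun t => (VV d m r (x t) (N t) (A t j) : ℚ) *
      ((((TG d m r)^[A t j] (x t) : ℤ) : ℚ) - if (j : ℕ) < S then ξ t j else 0)) =
      P + ∑ i : Fin (S + 1) with i ≤ j, (E i : GG) * G i := by
    intro j
    have h1 : ∀ t, (VV d m r (x t) (N t) (A t j) : ℚ) *
        ((((TG d m r)^[A t j] (x t) : ℤ) : ℚ) - if (j : ℕ) < S then ξ t j else 0) =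
        (VV d m r (x t) (N t) 0 : ℚ) * x t + ∑ i : Fin (S + 1) with i ≤ j,
          EE S ξ i t * (VV d m r (x t) (N t) (A t i) : ℚ) := by
      intro t
      rw [tele D (h.hA0 t) (fun i hi => h.le_N t hi) (h.hPP t) j (by omega)]
      congr 1
      have h3 : ∀ F : ℕ → ℚ, ∑ i : Fin (S + 1) with i ≤ j, F i = ∑ i ∈ range (j + 1), F i := by
        intro F
        have h4 : ∀ i : Fin (S + 1), (if i ≤ j then F (i : ℕ) else 0) =
            (fun k : ℕ => if k ≤ (j : ℕ) then F k else 0) (i : ℕ) := fun i => by
          by_cases hi : i ≤ j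
          · rw [if_pos hi]
            simp only
            rw [if_pos (show (i : ℕ) ≤ (j : ℕ) from hi)]
          · rw [if_neg hi]
            simp only
            rw [if_neg (show ¬ (i : ℕ) ≤ (j : ℕ) from hi)]
        have h5 : range (j + 1) = (range (S + 1)).filter (fun i => i ≤ (j : ℕ)) := by
          ext i
          rw [mem_filter, mem_range, mem_range]
          omega
        rw [Finset.sum_filter, sum_congr rfl fun i _ => h4 i, Fin.sum_univ_eq_sum_range
          (fun k : ℕ => if k ≤ (j : ℕ) then F k else 0), ← Finset.sum_filter, h5]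
      rw [h3 fun i => EE S ξ i t * (VV d m r (x t) (N t) (A t i) : ℚ)]
      apply sum_congr rfl
      intro i _
      unfold EE
      ring
    have h2 : ∑ i : Fin (S + 1) with i ≤ j, (E i : GG) * G i =
        gm (fun t => ∑ i : Fin (S + 1) with i ≤ j, EE S ξ i t * (VV d m r (x t) (N t) (A t i) : ℚ)) := by
      rw [← gm_sum]
      rfl
    rw [h2, hP, gm_add]
    congr 1
    funext t
    rw [h1 t]
    push_cast
    rfl
  set Y : ℕ → ℤ := fun t => VV d m r (x t) (N t) (A t S) * (TG d m r)^[A t S] (x t) with hY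
  have hYrel : P + ∑ q : Quotient st, (κ q : GG) * G q.out = gm (fun t => (Y t : ℚ)) := by
    have h1 := htele (Fin.last S)
    rw [Fin.val_last] at h1
    simp only [lt_irrefl, if_false, sub_zero] at h1
    have h2 : gm (fun t => (Y t : ℚ)) = gm (fun t => (VV d m r (x t) (N t) (A t S) : ℚ) *
        (((TG d m r)^[A t S] (x t) : ℤ) : ℚ)) := by
      congr 1
      funext t
      simp only [hY]
      push_cast
      rfl
    rw [h2, h1]
    congr 1
    rw [sum_congr rfl fun q _ => hκq q]
    have h3 : (univ.filter fun i : Fin (S + 1) => i ≤ Fin.last S) = univ := by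
      ext i
      simp [Fin.le_last]
    rw [h3]
    exact Finset.sum_fiberwise _ _ _
  -- the parameters of the subspace theorem
  set U : Quotient st → ℕ → ℤ := fun q t => VV d m r (x t) (N t) (A t q.out) with hU
  have hUG : ∀ q : Quotient st, gm (fun t => (U q t : ℚ)) = G q.out := fun q => rfl
  have hUabs : ∀ q t, |(U q t : ℝ)| = ∏ v, (b v : ℝ) ^ (padicValInt (b v) (U q t)) :=
    fun q t => VV_abs D hb hbi hbp _ _ _
  have hUdv : ∀ q v t, (b v : ℤ) ^ (padicValInt (b v) (U q t)) ∣ U q t :=
    fun q v t => padicValInt_dvd _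
  have hUSU : ∀ q : Quotient st, GSU b (gm fun t => (U q t : ℚ)) :=
    fun q => ⟨_, rfl, fun t => VV_SU D hb hbi hbp _ _ _⟩
  have hUne : ∀ q q' : Quotient st, q ≠ q' → (gm fun t => (U q t : ℚ)) /
      (gm fun t => (U q' t : ℚ)) ∉ KK _ hL := by
    intro q q' hqq h1
    apply hqq
    rw [hUG, hUG, ← hst, hout, hout] at h1
    exact h1
  have hlH : 0 ≤ Real.log (HH d m r) := by linarith
  have hUb : ∀ q : Quotient st, ∀ᶠ t in (UU : Filter ℕ), Real.log |(U q t : ℝ)| ≤
      Real.log (HH d m r) * N t :=
    fun q => Eventually.of_forall fun t => hVle t _ (by omega)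
  have hN0 : ∀ t, (0 : ℝ) ≤ N t := fun t => Nat.cast_nonneg _
  have hxlog : ∀ t, Real.log |(x t : ℝ)| ≤ N t * Real.log δ / (1 + η) := by
    intro t
    rw [le_div_iff₀ (by linarith), mul_comm]
    exact h.hx t
  have hxlog' : ∀ t, N t * Real.log δ / (1 + η) ≤ N t * Real.log δ := by
    intro t
    rw [div_le_iff₀ (by linarith)]
    have : 0 ≤ N t * Real.log δ := mul_nonneg (hN0 t) hlδ.le
    nlinarith
  set γ : ℝ := η / (1 + η) * Real.log δ with hγ
  have hγ0 : 0 < γ := by rw [hγ]; positivity
  have hγ1 : ∀ t, N t * Real.log δ / (1 + η) - N t * Real.log δ = - γ * N t := by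
    intro t
    rw [hγ]
    field_simp
    ring
  -- divisibility of `Y` at the primes
  set f : Fin s → ℕ → ℕ := fun v t => N t * padicValNat (b v) d with hf
  have hfY : ∀ v t, (b v : ℤ) ^ (f v t) ∣ Y t := by
    intro v t
    have h1 := VV_val_ge D (hb v) (x t) (n := N t) (a := A t S)
    rw [h.hAS] at h1
    simp only [hY, hf]
    rw [h.hAS]
    exact Dvd.dvd.mul_right ((pow_dvd_pow _ h1).trans (padicValInt_dvd _)) _
  have hfb : ∀ v t, (f v t : ℝ) * Real.log (b v) ≤ Real.log (HH d m r) * N t := by
    intro v t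
    have h1 : (padicValNat (b v) d : ℝ) * Real.log (b v) ≤ Real.log d := by
      rw [hlogd]
      exact single_le_sum (f := fun v => (padicValNat (b v) d : ℝ) * Real.log (b v))
        (fun v _ => mul_nonneg (Nat.cast_nonneg _) (hlb v).le) (mem_univ v)
    simp only [hf]
    push_cast
    calc (N t : ℝ) * (padicValNat (b v) d) * Real.log (b v) =
          N t * ((padicValNat (b v) d) * Real.log (b v)) := by ring
      _ ≤ N t * Real.log (HH d m r) := mul_le_mul_of_nonneg_left (h1.trans hldH) (hN0 t)
      _ = _ := mul_comm _ _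
  -- the gain at the primes of `δ`
  have hgain : ∀ t, ∀ a ≤ N t, ∑ v, (if b v ∣ δ then
      ((padicValInt (b v) (VV d m r (x t) (N t) a) : ℝ) - f v t) * Real.log (b v) else 0) ≤
      - (((N t - a : ℕ) : ℝ) * Real.log δ) := by
    intro t a ha
    rw [← hlogδ', mul_sum, ← sum_neg_distrib]
    apply sum_le_sum
    intro v _
    by_cases hv : b v ∣ δ
    · rw [if_pos hv, if_pos hv]
      have h1 := VV_val D (hb v) hv (x t) ha
      have h2 : (padicValInt (b v) (VV d m r (x t) (N t) a) : ℝ) + ((N t - a : ℕ) : ℝ) *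
          padicValNat (b v) δ ≤ f v t := by
        simp only [hf]
        exact_mod_cast h1
      have h3 : (padicValInt (b v) (VV d m r (x t) (N t) a) : ℝ) - f v t ≤
          - (((N t - a : ℕ) : ℝ) * padicValNat (b v) δ) := by linarith
      have h4 := mul_le_mul_of_nonneg_right h3 (hlb v).le
      linarith
    · rw [if_neg hv, if_neg hv, mul_zero, neg_zero]
  -- case 1
  have hspan : ∃ c : Quotient st → KK _ hL, P = ∑ q, (c q : GG) * G q.out := by
    by_contra hcon
    push Not at hcon
    refine lemG5 b hb hbi hL U (fun q v t => padicValInt (b v) (U q t)) hUabs hUdv hUSU hUne κ Y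
      (fun t => VV d m r (x t) (N t) 0) x (fun v t => padicValInt (b v) (VV d m r (x t) (N t) 0))
      (fun t => VV_abs D hb hbi hbp _ _ _) (fun v t => padicValInt_dvd _) hYrel hcon
      (Real.log (HH d m r)) hlH hUb (Eventually.of_forall fun t => ?_)
      (Eventually.of_forall fun t => ?_) (fun v => b v ∣ δ) f
      (fun v _ => Eventually.of_forall fun t => hfY v t) (fun v => Eventually.of_forall fun t => hfb v t)
      γ hγ0 (Eventually.of_forall fun t => ?_)
    · have := hVle t 0 (Nat.zero_le _)
      rwa [h.hA0] at this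
    · refine (hxlog t).trans ((hxlog' t).trans ?_)
      rw [mul_comm]
      exact mul_le_mul_of_nonneg_right (hldδ.trans hldH) (hN0 t)
    · have h1 := hgain t 0 (Nat.zero_le _)
      rw [Nat.sub_zero] at h1
      have h2 := hxlog t
      have h3 := hγ1 t
      have h4 : Real.log |(x t : ℝ)| + ∑ v, (if b v ∣ δ then
        ((padicValInt (b v) (VV d m r (x t) (N t) 0) : ℝ) - f v t) * Real.log (b v) else 0) ≤
        - γ * N t := by linarith
      refine le_trans (le_of_eq ?_) h4
      congr 1
      exact sum_congr rfl fun v _ => ite_dec _ _ _ _ _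
  obtain ⟨c, hc⟩ := hspan
  have hYa : ∑ q, (((c q + κ q : KK _ hL)) : GG) * G q.out = gm (fun t => (Y t : ℚ)) := by
    rw [← hYrel, hc, ← sum_add_distrib]
    apply sum_congr rfl
    intro q _
    push_cast
    ring
  -- case 2a
  have ha0 : ∀ q : Quotient st, q ≠ Quotient.mk st (Fin.last S) → c q + κ q = 0 := by
    intro q0 hq0
    by_contra hne
    have hc0 : ∃ c0 : ℝ, 0 < c0 ∧ ∀ᶠ t in (UU : Filter ℕ), c0 * N t ≤ ((N t - A t q0.out : ℕ) : ℝ) := by
      by_contra hcon
      push Not at hcon
      apply hq0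
      rw [← hout q0, hst]
      apply key2 D h (show ((q0.out : Fin (S + 1)) : ℕ) ≤ (Fin.last S : ℕ) from Fin.le_last _)
        (by simp)
      intro ε hε
      filter_upwards [hcon ε hε] with t ht
      rw [Fin.val_last, h.hAS]
      exact ht.le
    obtain ⟨c0, hc0, hev⟩ := hc0
    refine lemG4 b hb hbi hL U (fun q v t => padicValInt (b v) (U q t)) hUabs hUdv hUSU hUne
      (fun q => c q + κ q) Y hYa (Real.log (HH d m r)) hlH hUb q0 hne False (fun v => b v ∣ δ) f
      (fun v _ => Eventually.of_forall fun t => hfY v t) (fun v => Eventually.of_forall fun t => hfb v t)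
      (c0 * Real.log δ) (by positivity) ?_
    filter_upwards [hev] with t ht
    have h1 := hgain t (A t q0.out) (h.le_N t (by omega))
    have h2 := mul_le_mul_of_nonneg_right ht hlδ.le
    rw [if_neg (fun h => h), zero_add]
    have h3 := h1.trans (show - (((N t - A t q0.out : ℕ) : ℝ) * Real.log δ) ≤
      - (c0 * Real.log δ) * N t by linarith)
    refine le_trans (le_of_eq ?_) h3
    exact sum_congr rfl fun v _ => ite_dec _ _ _ _ _
  -- case 2b
  have hcS : c (Quotient.mk st (Fin.last S)) = 0 := by
    by_contra hne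
    set q0 := Quotient.mk st (Fin.last S) with hq0
    have hK : G q0.out / G (Fin.last S) ∈ KK _ hL := by
      rw [← hst, hout]
    have hev := key1 D h (show ((q0.out : Fin (S + 1)) : ℕ) ≤ (Fin.last S : ℕ) from Fin.le_last _)
      (by simp) hK (ε := γ / 2 / Real.log d) (by positivity)
    set Y' : ℕ → ℤ := fun t => VV d m r (x t) (N t) 0 * x t with hY'
    refine lemG4 b hb hbi hL U (fun q v t => padicValInt (b v) (U q t)) hUabs hUdv hUSU hUne
      c Y' hc.symm (Real.log (HH d m r)) hlH hUb q0 hne True (fun v => ¬ b v ∣ δ)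
      (fun v t => padicValInt (b v) (VV d m r (x t) (N t) 0))
      (fun v _ => Eventually.of_forall fun t => Dvd.dvd.mul_right (padicValInt_dvd _) _)
      (fun v => Eventually.of_forall fun t => ?_) (γ / 2) (by positivity) ?_
    · have h1 : (padicValInt (b v) (VV d m r (x t) (N t) 0) : ℝ) * Real.log (b v) ≤
          Real.log |(VV d m r (x t) (N t) 0 : ℝ)| := by
        rw [hVlog]
        exact single_le_sum (f := fun v => (padicValInt (b v) (VV d m r (x t) (N t) 0) : ℝ) *
          Real.log (b v)) (fun v _ => mul_nonneg (Nat.cast_nonneg _) (hlb v).le) (mem_univ v)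
      have h2 := hVle t 0 (Nat.zero_le _)
      rw [h.hA0] at h2
      exact h1.trans h2
    · filter_upwards [hev] with t ht
      rw [Fin.val_last, h.hAS] at ht
      rw [if_pos trivial]
      set V0 := VV d m r (x t) (N t) 0 with hV0
      have hV0ne : V0 ≠ 0 := VV_ne D _ _ _
      have h1 : Real.log |(Y' t : ℝ)| ≤ Real.log |(V0 : ℝ)| + Real.log |(x t : ℝ)| := by
        by_cases hx0 : x t = 0
        · simp only [hY']
          rw [hx0]
          simp only [mul_zero, Int.cast_zero, abs_zero, Real.log_zero, add_zero]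
          exact log_abs_nonneg hV0ne
        · simp only [hY']
          push_cast
          rw [abs_mul, Real.log_mul (abs_ne_zero.2 (by exact_mod_cast hV0ne))
            (abs_ne_zero.2 (by exact_mod_cast hx0))]
      have h2 : Real.log |(U q0 t : ℝ)| = ∑ v, (padicValInt (b v) (U q0 t) : ℝ) * Real.log (b v) :=
        hVlog t _
      have h3 : Real.log |(V0 : ℝ)| = ∑ v, (padicValInt (b v) V0 : ℝ) * Real.log (b v) := hVlog t 0
      have h4 : (∑ v, (padicValInt (b v) V0 : ℝ) * Real.log (b v) -
          ∑ v, (padicValInt (b v) (U q0 t) : ℝ) * Real.log (b v)) +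
          ∑ v, (if ¬ b v ∣ δ then ((padicValInt (b v) (U q0 t) : ℝ) -
            (padicValInt (b v) V0 : ℝ)) * Real.log (b v) else 0) =
          ∑ v, (if b v ∣ δ then ((padicValInt (b v) V0 : ℝ) - padicValInt (b v) (U q0 t)) *
            Real.log (b v) else 0) := by
        rw [← sum_sub_distrib, ← sum_add_distrib]
        apply sum_congr rfl
        intro v _
        by_cases hv : b v ∣ δ
        · rw [if_neg (not_not.2 hv), if_pos hv]
          ring
        · rw [if_pos hv, if_neg hv]
          ring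
      have h5 : ∑ v, (if b v ∣ δ then ((padicValInt (b v) V0 : ℝ) - padicValInt (b v) (U q0 t)) *
            Real.log (b v) else 0) ≤ ((N t - A t q0.out : ℕ) : ℝ) * Real.log d - N t * Real.log δ := by
        refine le_trans ?_ (sub_le_sub_right (mul_le_mul_of_nonneg_left hlogd' (Nat.cast_nonneg _)) _)
        rw [← hlogδ', mul_sum, mul_sum, ← sum_sub_distrib]
        apply sum_le_sum
        intro v _
        by_cases hv : b v ∣ δ
        · rw [if_pos hv, if_pos hv, if_pos hv]
          have h6 := VV_val D (hb v) hv (x t) (Nat.zero_le (N t))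
          have h7 := VV_val_ge D (hb v) (x t) (n := N t) (a := A t q0.out)
          rw [Nat.sub_zero, ← hV0] at h6
          have h8 : (padicValInt (b v) V0 : ℝ) + N t * padicValNat (b v) δ ≤
              N t * padicValNat (b v) d := by exact_mod_cast h6
          have h9 : (A t q0.out : ℝ) * padicValNat (b v) d ≤ padicValInt (b v) (U q0 t) := by
            exact_mod_cast h7
          have h10 : ((N t - A t q0.out : ℕ) : ℝ) = N t - A t q0.out := by
            rw [Nat.cast_sub (h.le_N t (by omega))]
          have h11 : (padicValInt (b v) V0 : ℝ) - padicValInt (b v) (U q0 t) ≤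
              ((N t - A t q0.out : ℕ) : ℝ) * padicValNat (b v) d - N t * padicValNat (b v) δ := by
            rw [h10]
            linarith
          have h12 := mul_le_mul_of_nonneg_right h11 (hlb v).le
          linarith
        · rw [if_neg hv, if_neg hv, if_neg hv]
          simp
      have h6 : ((N t - A t q0.out : ℕ) : ℝ) * Real.log d ≤ γ / 2 * N t := by
        have h7 := mul_le_mul_of_nonneg_right ht hld.le
        refine h7.trans (le_of_eq ?_)
        field_simp
      have h7 := hxlog t
      have h8 := hγ1 t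
      rw [h3] at h1
      have h9 : Real.log |(Y' t : ℝ)| - Real.log |(U q0 t : ℝ)| +
          ∑ v, (if ¬ b v ∣ δ then ((padicValInt (b v) (U q0 t) : ℝ) -
            (padicValInt (b v) V0 : ℝ)) * Real.log (b v) else 0) ≤ - (γ / 2) * N t := by
        rw [h2]
        linarith
      refine le_trans (le_of_eq ?_) h9
      congr 1
      exact sum_congr rfl fun v _ => ite_dec _ _ _ _ _
  -- the last index which matters
  set B : Finset (Fin (S + 1)) := univ.filter fun i =>
    c (Quotient.mk st i) ≠ 0 ∨ Quotient.mk st i = Quotient.mk st 0 with hB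
  have hBmem : ∀ i, i ∈ B ↔ (c (Quotient.mk st i) ≠ 0 ∨ Quotient.mk st i = Quotient.mk st 0) := by
    intro i
    rw [hB, mem_filter]
    simp
  have hBne : B.Nonempty := ⟨0, (hBmem 0).2 (Or.inr rfl)⟩
  set j := B.max' hBne with hj
  have hjB : j ∈ B := B.max'_mem hBne
  have hjmax : ∀ i ∈ B, i ≤ j := fun i hi => B.le_max' i hi
  have hlast : ∀ i : Fin (S + 1), i ∈ B → Quotient.mk st i ≠ Quotient.mk st (Fin.last S) := by
    intro i hi h1
    rw [hBmem] at hi
    rcases hi with h2 | h2
    · rw [h1] at h2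
      exact h2 hcS
    · exact h0S (h2.symm.trans h1)
  have hjS : (j : ℕ) < S := by
    have h1 : j ≠ Fin.last S := by
      intro h2
      exact hlast j hjB (by rw [h2])
    exact Fin.val_lt_last h1
  have hzero : P + ∑ i : Fin (S + 1) with i ≤ j, (E i : GG) * G i = 0 := by
    rw [hc]
    have h1 : ∑ i : Fin (S + 1) with i ≤ j, (E i : GG) * G i =
        ∑ q : Quotient st, ∑ i : Fin (S + 1) with (i ≤ j ∧ Quotient.mk st i = q), (E i : GG) * G i := by
      rw [← Finset.sum_fiberwise (univ.filter fun i : Fin (S + 1) => i ≤ j) (Quotient.mk st)]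
      apply sum_congr rfl
      intro q _
      rw [filter_filter]
    rw [h1, ← sum_add_distrib]
    apply sum_eq_zero
    intro q _
    by_cases hq : ∃ i : Fin (S + 1), i ≤ j ∧ Quotient.mk st i = q
    · obtain ⟨i, hij, hiq⟩ := hq
      have h2 : ∀ k : Fin (S + 1), Quotient.mk st k = q → k ≤ j := by
        intro k hk
        by_contra hkj
        have hjk : j ≤ k := (not_le.1 hkj).le
        have h3 := hint i j k hij hjk (hiq.trans hk.symm)
        have h4 : Quotient.mk st j = Quotient.mk st k := h3.symm.trans (hiq.trans hk.symm)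
        apply hkj
        apply hjmax
        rw [hBmem, ← h4, ← hBmem]
        exact hjB
      have h3 : q ≠ Quotient.mk st (Fin.last S) := by
        intro h4
        have h5 := hint i j (Fin.last S) hij (Fin.le_last _) (hiq.trans h4)
        exact hlast j hjB (h5.symm.trans (hiq.trans h4))
      have h4 := ha0 q h3
      have h5 : (univ.filter fun k : Fin (S + 1) => k ≤ j ∧ Quotient.mk st k = q) =
          univ.filter fun k : Fin (S + 1) => Quotient.mk st k = q := by
        ext k
        rw [mem_filter, mem_filter]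
        exact ⟨fun h => ⟨h.1, h.2.2⟩, fun h => ⟨h.1, h2 k h.2, h.2⟩⟩
      rw [h5, ← hκq, ← add_mul]
      have h6 : (c q : GG) + (κ q : GG) = 0 := by
        have := congrArg (fun k : KK _ hL => (k : GG)) h4
        simpa using this
      rw [h6, zero_mul]
    · push Not at hq
      have h2 : (univ.filter fun k : Fin (S + 1) => k ≤ j ∧ Quotient.mk st k = q) = ∅ := by
        rw [filter_eq_empty_iff]
        intro k _ hk
        exact hq k hk.1 hk.2
      have h3 : c q = 0 := by
        by_contra h4
        have h5 : q.out ∈ B := by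
          rw [hBmem, hout]
          exact Or.inl h4
        exact hq q.out (hjmax _ h5) (hout q)
      rw [h2, h3]
      simp
  have hval := htele j
  simp only [hjS, if_true] at hval
  rw [hzero, ← gm_zero, gm_eq] at hval
  refine ⟨j, hjS, ?_⟩
  have hlt : ∀ᶠ t in (UU : Filter ℕ), A t j < A t (j + 1) := by
    by_contra hcon
    have h1 := Ultrafilter.eventually_not.2 hcon
    have hj1 : (j : ℕ) + 1 < S + 1 := by omega
    have h2 : G j / G ⟨j + 1, hj1⟩ ∈ KK _ hL := by
      apply key2 D h (Nat.le_succ _) (by omega)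
      intro ε hε
      filter_upwards [h1] with t ht
      rw [Nat.sub_eq_zero_of_le (not_lt.1 ht), Nat.cast_zero]
      exact mul_nonneg hε.le (hN0 t)
    rw [← hst] at h2
    have h3 : (⟨j + 1, hj1⟩ : Fin (S + 1)) ∈ B := by
      rw [hBmem, ← h2, ← hBmem]
      exact hjB
    have h4 := hjmax _ h3
    have h5 : (j : ℕ) + 1 ≤ j := h4
    omega
  filter_upwards [hval, hlt] with t h1 h2
  refine ⟨h2, ?_⟩
  have h3 : (VV d m r (x t) (N t) (A t j) : ℚ) ≠ 0 := by exact_mod_cast VV_ne D _ _ _
  have h4 := (mul_eq_zero.1 h1).resolve_left h3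
  linarith

end

end Pool.Agent.J6H87.SW
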