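import Mathlib
import Pool.Agent.J6H87.SW.FD

set_option autoImplicit false

/-!
# Trajectories with simple residue words cycle
-/

open Finset Filter Topology Pool.Agent.TH932.Germs

namespace Pool.Agent.J6H87.SW

variable {d δ : ℕ} {m r : ℤ → ℤ}

theorem simple_words (D : Dat d δ m r) (s : ℕ) {η : ℝ} (hη : 0 < η) :
    ∃ ε : ℝ, 0 < ε ∧ ∃ X : ℕ, ∀ (x : ℤ) (n ℓ : ℕ), X ≤ n →
      (1 + η) * Real.log |(x : ℝ)| ≤ n * Real.log δ → (ℓ : ℝ) ≤ ε * n → Spl (wd d m r x) ℓ s n →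
      ∃ j π, 1 ≤ π ∧ π ≤ ℓ ∧ j + π ≤ n ∧ (TG d m r)^[j + π] x = (TG d m r)^[j] x := by
  by_contra hcon
  push Not at hcon
  have h1 : ∀ t : ℕ, ∃ (x : ℤ) (n ℓ : ℕ), t ≤ n ∧
      (1 + η) * Real.log |(x : ℝ)| ≤ n * Real.log δ ∧ ((t : ℝ) + 1) * ℓ ≤ n ∧
      Spl (wd d m r x) ℓ s n ∧
      ∀ j π, 1 ≤ π → π ≤ ℓ → j + π ≤ n → (TG d m r)^[j + π] x ≠ (TG d m r)^[j] x := by
    intro t
    obtain ⟨x, n, ℓ, h1, h2, h3, h4, h5⟩ := hcon (1 / ((t : ℝ) + 1)) (by positivity) t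
    refine ⟨x, n, ℓ, h1, h2, ?_, h4, h5⟩
    have ht : (0 : ℝ) < (t : ℝ) + 1 := by positivity
    rw [div_mul_eq_mul_div, one_mul, le_div_iff₀ ht] at h3
    linarith
  choose x n ℓ h1 h2 h3 h4 h5 using h1
  choose A ξ h6 h7 h8 using fun t => PPall D (x t) (h4 t)
  have hS : Seqs d δ m r (2 * s) η x n ℓ A ξ := ⟨h1, h3, h6, h7, h8, h2⟩
  obtain ⟨j, hj, hev⟩ := main_germ D hη hS
  obtain ⟨t, h9, h10⟩ := hev.exists
  obtain ⟨π, h11, h12, h13, h14⟩ := (h8 t j hj).per h9 h10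
  exact h5 t (A t j) π h11 h12 (h13.trans (hS.le_N t (by omega))) h14

end Pool.Agent.J6H87.SW
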